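import Mathlib

/-!
# Harish-Chandra modules of `SL₂(ℝ) × SL₂(ℝ)`, `G`-continuous norms and Sobolev norms
-/

set_option autoImplicit false

namespace Pool.Agent.NH57.Sob

open Matrix Complex

/-- The group `SL₂(ℝ)`, with its usual topology. -/
abbrev SL2 : Type := Matrix.SpecialLinearGroup (Fin 2) ℝ

/-- The real reductive group `G = SL₂(ℝ) × SL₂(ℝ)`. -/
abbrev G : Type := SL2 × SL2

/-- Real `2 × 2` matrices. -/
abbrev M2 : Type := Matrix (Fin 2) (Fin 2) ℝ

/-- The matrix of an element of `SL₂(ℝ)`. -/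
def mat : SL2 →* M2 where
  toFun g := g.1
  map_one' := rfl
  map_mul' _ _ := rfl

/-- The Lie algebra `𝔤 = 𝔰𝔩₂(ℝ) × 𝔰𝔩₂(ℝ)` of `G`: the pairs of matrices with trace zero. Its
bracket is the commutator in both components. -/
def Lg : Submodule ℝ (M2 × M2) where
  carrier := {X | X.1.trace = 0 ∧ X.2.trace = 0}
  add_mem' := by
    rintro X Y ⟨h1, h2⟩ ⟨h3, h4⟩
    refine ⟨?_, ?_⟩
    · rw [Prod.fst_add, Matrix.trace_add, h1, h3, add_zero]
    · rw [Prod.snd_add, Matrix.trace_add, h2, h4, add_zero]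
  zero_mem' := ⟨by simp, by simp⟩
  smul_mem' := by
    rintro a X ⟨h1, h2⟩
    refine ⟨?_, ?_⟩
    · rw [Prod.smul_fst, Matrix.trace_smul, h1, smul_zero]
    · rw [Prod.smul_snd, Matrix.trace_smul, h2, smul_zero]

/-- The maximal compact subgroup `K = SO(2) × SO(2)` of `G`: the pairs of orthogonal matrices. -/
def K : Subgroup G where
  carrier := {g | (mat g.1)ᵀ * mat g.1 = 1 ∧ (mat g.2)ᵀ * mat g.2 = 1}
  mul_mem' := by
    have key : ∀ a b : SL2, (mat a)ᵀ * mat a = 1 → (mat b)ᵀ * mat b = 1 →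
        (mat (a * b))ᵀ * mat (a * b) = 1 := by
      intro a b h1 h2
      rw [map_mul, Matrix.transpose_mul, Matrix.mul_assoc, ← Matrix.mul_assoc _ (mat a), h1,
        Matrix.one_mul, h2]
    rintro a b ⟨h1, h2⟩ ⟨h3, h4⟩
    exact ⟨key _ _ h1 h3, key _ _ h2 h4⟩
  one_mem' := ⟨by simp, by simp⟩
  inv_mem' := by
    have key : ∀ a : SL2, (mat a)ᵀ * mat a = 1 → (mat a⁻¹)ᵀ * mat a⁻¹ = 1 := by
      intro a h
      have h1 : mat a * mat a⁻¹ = 1 := by rw [← map_mul, mul_inv_cancel, map_one]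
      have h2 : (mat a)ᵀ = mat a⁻¹ := by
        calc (mat a)ᵀ = (mat a)ᵀ * (mat a * mat a⁻¹) := by rw [h1, Matrix.mul_one]
          _ = _ := by rw [← Matrix.mul_assoc, h, Matrix.one_mul]
      rw [← h2, Matrix.transpose_transpose, h2, h1]
    rintro a ⟨h1, h2⟩
    exact ⟨key _ h1, key _ h2⟩

/-- For a rotation matrix with angle `θ`, the number `e^{iθ}`. -/
def cis (g : M2) : ℂ := (g 0 0 : ℂ) + (g 1 0 : ℂ) * I

/-- `v` is a vector of `K`-type `(m, n)`: the element `(rotation by θ, rotation by φ)` of `K` acts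
on `v` by the scalar `e^{i(mθ + nφ)}`. -/
def IsWeight {V : Type} [AddCommGroup V] [Module ℂ V] (κ : K →* Module.End ℂ V) (m n : ℤ) (v : V) :
    Prop :=
  ∀ k : K, κ k v = (cis (mat k.1.1) ^ m * cis (mat k.1.2) ^ n) • v

/-- A Harish-Chandra module of `G`: a finitely generated admissible `(𝔤, K)`-module. -/
structure HCModule (V : Type) [AddCommGroup V] [Module ℂ V] where
  /-- the action of the Lie algebra -/
  π : Lg → Module.End ℂ V
  /-- the action of `K` -/
  κ : K →* Module.End ℂ V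
  π_add : ∀ X Y, π (X + Y) = π X + π Y
  π_smul : ∀ (a : ℝ) X, π (a • X) = (a : ℂ) • π X
  π_bracket : ∀ X Y Z : Lg, Z.1 = (X.1.1 * Y.1.1 - Y.1.1 * X.1.1, X.1.2 * Y.1.2 - Y.1.2 * X.1.2) →
    π Z = π X * π Y - π Y * π X
  /-- compatibility with the adjoint action of `K` -/
  κ_π : ∀ (k : K) (X Y : Lg), Y.1 = (mat k.1.1 * X.1.1 * mat k.1.1⁻¹,
    mat k.1.2 * X.1.2 * mat k.1.2⁻¹) → κ k * π X = π Y * κ k
  /-- `V` is the (algebraic) sum of the `K`-isotypic components -/
  spanned : Submodule.span ℂ {v | ∃ m n, IsWeight κ m n v} = ⊤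
  /-- on the Lie algebra of `K` the action `π` is the derivative of `κ` -/
  π_left : ∀ (X : Lg), X.1 = (!![0, -1; 1, 0], 0) → ∀ m n v, IsWeight κ m n v →
    π X v = ((m : ℂ) * I) • v
  π_right : ∀ (X : Lg), X.1 = (0, !![0, -1; 1, 0]) → ∀ m n v, IsWeight κ m n v →
    π X v = ((n : ℂ) * I) • v
  /-- finite generation over the enveloping algebra -/
  fg : ∃ S : Set V, S.Finite ∧ ∀ W : Submodule ℂ V, S ⊆ W → (∀ X, ∀ w ∈ W, π X w ∈ W) → W = ⊤
  /-- admissibility: the isotypic components are finite dimensional -/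
  admissible : ∀ m n, ∃ S : Set V, S.Finite ∧ ∀ v, IsWeight κ m n v → v ∈ Submodule.span ℂ S

/-- `p` is a norm. -/
def IsNorm {V : Type} [AddCommGroup V] [Module ℂ V] (p : V → ℝ) : Prop :=
  (∀ v w, p (v + w) ≤ p v + p w) ∧ (∀ (a : ℂ) v, p (a • v) = ‖a‖ * p v) ∧ ∀ v, p v = 0 → v = 0

/-- The norm `p` on the Harish-Chandra module `M` is `G`-continuous: the completion `E` of
`(V, p)` carries a continuous representation `ρ` of `G` by bounded operators which on (the image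
of) `V` induces the given actions of `K` and of `𝔤`, that is, for every `X ∈ 𝔤` and every one
parameter subgroup `γ` of `G` with `γ'(0) = X` the derivative of `t ↦ ρ(γ(t)) v` at `0` is `X v`
for all `v ∈ V`. (All iterated derivatives of the vectors of `V` along one parameter subgroups
then exist and lie in `V`, so that `V` consists of smooth vectors, and they are `K`-finite.) -/
def GContinuous {V : Type} [AddCommGroup V] [Module ℂ V] (M : HCModule V) (p : V → ℝ) : Prop :=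
  ∃ (E : Type) (_ : NormedAddCommGroup E) (_ : NormedSpace ℂ E) (_ : CompleteSpace E)
    (ι : V →ₗ[ℂ] E) (ρ : G →* (E →L[ℂ] E)),
    (∀ v, ‖ι v‖ = p v) ∧ DenseRange ι ∧ Continuous (fun x : G × E => ρ x.1 x.2) ∧
    (∀ (k : K) v, ρ k.1 (ι v) = ι (M.κ k v)) ∧
    ∀ (γ : Multiplicative ℝ →* G) (X : Lg),
      (∀ i j, HasDerivAt (fun t : ℝ => mat (γ (Multiplicative.ofAdd t)).1 i j) (X.1.1 i j) 0) →
      (∀ i j, HasDerivAt (fun t : ℝ => mat (γ (Multiplicative.ofAdd t)).2 i j) (X.1.2 i j) 0) →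
      ∀ v, HasDerivAt (fun t : ℝ => ρ (γ (Multiplicative.ofAdd t)) (ι v)) (ι (M.π X v)) 0

/-- `D` is the operator `D_s = (1 + Δ_K)^{s/2}`, where `Δ_K` acts on the vectors of `K`-type
`(m, n)` by `c (m² + n²)`. The number `c > 0` depends on the normalisation of the invariant form
on `𝔤` (`c = 1/8` for the Killing form). -/
def IsDs {V : Type} [AddCommGroup V] [Module ℂ V] (M : HCModule V) (c s : ℝ) (D : V →ₗ[ℂ] V) :
    Prop :=
  ∀ m n v, IsWeight M.κ m n v →
    D v = (((1 + c * ((m : ℝ) ^ 2 + (n : ℝ) ^ 2)) ^ (s / 2) : ℝ) : ℂ) • v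

end Pool.Agent.NH57.Sob
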