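import Mathlib
import Pool.Agent.NH57.Sob.Defs

/-!
The Harish-Chandra module of the `K`-finite functions on the torus `ℙ¹(ℝ) × ℙ¹(ℝ)`.
-/

set_option autoImplicit false

namespace Pool.Agent.NH57.Sob

open Matrix Complex ComplexConjugate

/-- the diagonal entry of the element of `SU(1,1)` attached to `g` -/
noncomputable def al (g : M2) : ℂ := ⟨(g 0 0 + g 1 1) / 2, (g 1 0 - g 0 1) / 2⟩

/-- the other entry of the element of `SU(1,1)` attached to `g` -/
noncomputable def be (g : M2) : ℂ := ⟨(g 0 0 - g 1 1) / 2, (g 1 0 + g 0 1) / 2⟩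

lemma al_mul (g h : M2) : al (g * h) = al g * al h + be g * conj (be h) := by
  simp only [al, be, Matrix.mul_apply, Fin.sum_univ_two]
  apply Complex.ext <;> simp <;> ring

lemma be_mul (g h : M2) : be (g * h) = al g * be h + be g * conj (al h) := by
  simp only [al, be, Matrix.mul_apply, Fin.sum_univ_two]
  apply Complex.ext <;> simp <;> ring

lemma al_add (g h : M2) : al (g + h) = al g + al h := by
  simp only [al, Matrix.add_apply]
  apply Complex.ext <;> simp <;> ring

lemma be_add (g h : M2) : be (g + h) = be g + be h := by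
  simp only [be, Matrix.add_apply]
  apply Complex.ext <;> simp <;> ring

lemma al_sub (g h : M2) : al (g - h) = al g - al h := by
  simp only [al, Matrix.sub_apply]
  apply Complex.ext <;> simp <;> ring

lemma be_sub (g h : M2) : be (g - h) = be g - be h := by
  simp only [be, Matrix.sub_apply]
  apply Complex.ext <;> simp <;> ring

lemma al_smul (a : ℝ) (g : M2) : al (a • g) = a * al g := by
  simp only [al, Matrix.smul_apply, smul_eq_mul]
  apply Complex.ext <;> simp <;> ring

lemma be_smul (a : ℝ) (g : M2) : be (a • g) = a * be g := by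
  simp only [be, Matrix.smul_apply, smul_eq_mul]
  apply Complex.ext <;> simp <;> ring

lemma conj_al {X : M2} (h : X.trace = 0) : conj (al X) = - al X := by
  rw [Matrix.trace_fin_two] at h
  simp only [al]
  apply Complex.ext
  · simp
    linarith
  · simp

lemma al_one : al 1 = 1 := by
  apply Complex.ext <;> simp [al]

lemma be_one : be 1 = 0 := by
  apply Complex.ext <;> simp [be]

/-- rotations -/
lemma rot {g : SL2} (h : (mat g)ᵀ * mat g = 1) :
    mat g 1 1 = mat g 0 0 ∧ mat g 0 1 = - mat g 1 0 ∧ mat g 0 0 ^ 2 + mat g 1 0 ^ 2 = 1 := by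
  have h1 : mat g * mat g⁻¹ = 1 := by rw [← map_mul, mul_inv_cancel, map_one]
  have h2 : (mat g)ᵀ = mat g⁻¹ := by
    calc (mat g)ᵀ = (mat g)ᵀ * (mat g * mat g⁻¹) := by rw [h1, Matrix.mul_one]
      _ = _ := by rw [← Matrix.mul_assoc, h, Matrix.one_mul]
  have h3 : mat g⁻¹ = !![mat g 1 1, - mat g 0 1; - mat g 1 0, mat g 0 0] := by
    show (g⁻¹ : SL2).1 = _
    rw [Matrix.SpecialLinearGroup.SL2_inv_expl]
    rfl
  rw [h3] at h2
  have h4 := congrFun (congrFun h2 0) 0
  have h5 := congrFun (congrFun h2 0) 1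
  have h6 := congrFun (congrFun h 0) 0
  simp [Matrix.mul_apply, Fin.sum_univ_two] at h4 h5 h6
  refine ⟨h4.symm, ?_, ?_⟩
  · linarith
  · nlinarith

lemma cis_rot {g : SL2} (h : (mat g)ᵀ * mat g = 1) : al (mat g) = cis (mat g) ∧ be (mat g) = 0 := by
  obtain ⟨h1, h2, h3⟩ := rot h
  constructor
  · simp only [al, cis, h1, h2]
    apply Complex.ext <;> simp
  · simp only [be, h1, h2]
    apply Complex.ext <;> simp

lemma cis_conj {g : SL2} (h : (mat g)ᵀ * mat g = 1) : cis (mat g) * conj (cis (mat g)) = 1 := by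
  obtain ⟨h1, h2, h3⟩ := rot h
  rw [Complex.mul_conj, ← Complex.ofReal_one]
  congr 1
  simp only [cis, Complex.normSq_apply]
  simp
  nlinarith

lemma cis_ne {g : SL2} (h : (mat g)ᵀ * mat g = 1) : cis (mat g) ≠ 0 := by
  intro h0
  have := cis_conj h
  rw [h0, zero_mul] at this
  exact zero_ne_one this

lemma cis_mul {g h : SL2} (hg : (mat g)ᵀ * mat g = 1) (hh : (mat h)ᵀ * mat h = 1) :
    cis (mat (g * h)) = cis (mat g) * cis (mat h) := by
  have hgh : (mat (g * h))ᵀ * mat (g * h) = 1 := by
    rw [map_mul, Matrix.transpose_mul, Matrix.mul_assoc, ← Matrix.mul_assoc _ (mat g), hg,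
      Matrix.one_mul, hh]
  rw [← (cis_rot hgh).1, map_mul, al_mul, (cis_rot hg).1, (cis_rot hg).2, (cis_rot hh).1, zero_mul,
    add_zero]

/-- The module: Laurent polynomials in two variables. -/
abbrev V : Type := (ℤ × ℤ) →₀ ℂ

/-- monomials -/
noncomputable def e (j l : ℤ) : V := Finsupp.single (j, l) 1

lemma ext_e {W : Type*} [AddCommGroup W] [Module ℂ W] {f g : V →ₗ[ℂ] W}
    (h : ∀ j l, f (e j l) = g (e j l)) : f = g := by
  apply Finsupp.lhom_ext'
  rintro ⟨j, l⟩
  apply LinearMap.ext_ring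
  exact h j l

lemma ind_e {P : V → Prop} (h0 : P 0) (hadd : ∀ v w, P v → P w → P (v + w))
    (hsmul : ∀ (a : ℂ) v, P v → P (a • v)) (he : ∀ j l, P (e j l)) (v : V) : P v := by
  induction v using Finsupp.induction_linear with
  | zero => exact h0
  | add f g hf hg => exact hadd f g hf hg
  | single p a =>
    have h1 : Finsupp.single p a = a • e p.1 p.2 := by
      rw [e, Finsupp.smul_single, smul_eq_mul, mul_one]
    rw [h1]
    exact hsmul _ _ (he _ _)

/-- linear maps given on the basis -/
noncomputable def lin {W : Type*} [AddCommGroup W] [Module ℂ W] (f : ℤ → ℤ → W) : V →ₗ[ℂ] W :=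
  Finsupp.linearCombination ℂ (fun p : ℤ × ℤ => f p.1 p.2)

@[simp] lemma lin_e {W : Type*} [AddCommGroup W] [Module ℂ W] (f : ℤ → ℤ → W) (j l : ℤ) :
    lin f (e j l) = f j l := by
  rw [lin, e, Finsupp.linearCombination_single, one_smul]

/-- action of the first factor of the Lie algebra -/
noncomputable def P1 (X : M2) : Module.End ℂ V :=
  lin fun j l => (j : ℂ) • ((-2 * al X) • e j l - be X • e (j - 1) l + conj (be X) • e (j + 1) l)

/-- action of the second factor of the Lie algebra -/
noncomputable def P2 (X : M2) : Module.End ℂ V :=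
  lin fun j l => (l : ℂ) • ((-2 * al X) • e j l - be X • e j (l - 1) + conj (be X) • e j (l + 1))

lemma P1_e (X : M2) (j l : ℤ) : P1 X (e j l) =
    (j : ℂ) • ((-2 * al X) • e j l - be X • e (j - 1) l + conj (be X) • e (j + 1) l) := lin_e _ _ _

lemma P2_e (X : M2) (j l : ℤ) : P2 X (e j l) =
    (l : ℂ) • ((-2 * al X) • e j l - be X • e j (l - 1) + conj (be X) • e j (l + 1)) := lin_e _ _ _

/-- action of `K` -/
noncomputable def kap (k : K) : Module.End ℂ V :=
  lin fun j l => (cis (mat k.1.1) ^ (-2 * j) * cis (mat k.1.2) ^ (-2 * l)) • e j l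

lemma kap_e (k : K) (j l : ℤ) :
    kap k (e j l) = (cis (mat k.1.1) ^ (-2 * j) * cis (mat k.1.2) ^ (-2 * l)) • e j l :=
  lin_e _ _ _

/-- action of `K` -/
noncomputable def kapHom : K →* Module.End ℂ V where
  toFun := kap
  map_one' := by
    apply ext_e
    intro j l
    rw [kap_e]
    have h1 : cis (mat (1 : K).1.1) = 1 := by
      show cis (mat 1) = 1
      simp [cis]
    have h2 : cis (mat (1 : K).1.2) = 1 := by
      show cis (mat 1) = 1
      simp [cis]
    rw [h1, h2]
    simp
  map_mul' := by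
    intro a b
    apply ext_e
    intro j l
    rw [Module.End.mul_apply, kap_e, kap_e, map_smul, kap_e, smul_smul]
    have h1 : cis (mat (a * b).1.1) = cis (mat a.1.1) * cis (mat b.1.1) := cis_mul a.2.1 b.2.1
    have h2 : cis (mat (a * b).1.2) = cis (mat a.1.2) * cis (mat b.1.2) := cis_mul a.2.2 b.2.2
    rw [h1, h2, mul_zpow, mul_zpow]
    congr 1
    ring

lemma P1_comm (X Y : M2) : P1 X * P2 Y = P2 Y * P1 X := by
  apply ext_e
  intro j l
  rw [Module.End.mul_apply, Module.End.mul_apply, P1_e, P2_e]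
  simp only [map_smul, map_add, map_sub, P1_e, P2_e]
  module

lemma P1_bracket (X Y : M2) (hX : X.trace = 0) (hY : Y.trace = 0) :
    P1 (X * Y - Y * X) = P1 X * P1 Y - P1 Y * P1 X := by
  apply ext_e
  intro j l
  rw [LinearMap.sub_apply, Module.End.mul_apply, Module.End.mul_apply, P1_e, P1_e, P1_e]
  simp only [map_smul, map_add, map_sub, P1_e, al_sub, be_sub, al_mul, be_mul, conj_al hX,
    conj_al hY, map_mul, map_neg]
  have e1 : j - 1 + 1 = j := by ring
  have e2 : j + 1 - 1 = j := by ring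
  rw [e1, e2]
  push_cast
  module

lemma P2_bracket (X Y : M2) (hX : X.trace = 0) (hY : Y.trace = 0) :
    P2 (X * Y - Y * X) = P2 X * P2 Y - P2 Y * P2 X := by
  apply ext_e
  intro j l
  rw [LinearMap.sub_apply, Module.End.mul_apply, Module.End.mul_apply, P2_e, P2_e, P2_e]
  simp only [map_smul, map_add, map_sub, P2_e, al_sub, be_sub, al_mul, be_mul, conj_al hX,
    conj_al hY, map_mul, map_neg]
  have e1 : l - 1 + 1 = l := by ring
  have e2 : l + 1 - 1 = l := by ring
  rw [e1, e2]
  push_cast
  module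

end Pool.Agent.NH57.Sob
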