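import Mathlib
import Pool.Agent.NH57.Sob.Mod

/-!
The Harish-Chandra module of the `K`-finite functions on the torus `ℙ¹(ℝ) × ℙ¹(ℝ)`, continued.
-/

set_option autoImplicit false

namespace Pool.Agent.NH57.Sob

open Matrix Complex ComplexConjugate

/-- the action of the Lie algebra -/
noncomputable def Pi' (X : Lg) : Module.End ℂ V := P1 X.1.1 + P2 X.1.2

lemma P1_add (X Y : M2) : P1 (X + Y) = P1 X + P1 Y := by
  apply ext_e
  intro j l
  rw [LinearMap.add_apply, P1_e, P1_e, P1_e, al_add, be_add, map_add]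
  module

lemma P2_add (X Y : M2) : P2 (X + Y) = P2 X + P2 Y := by
  apply ext_e
  intro j l
  rw [LinearMap.add_apply, P2_e, P2_e, P2_e, al_add, be_add, map_add]
  module

lemma P1_smul (a : ℝ) (X : M2) : P1 (a • X) = (a : ℂ) • P1 X := by
  apply ext_e
  intro j l
  rw [LinearMap.smul_apply, P1_e, P1_e, al_smul, be_smul, map_mul, Complex.conj_ofReal]
  module

lemma P2_smul (a : ℝ) (X : M2) : P2 (a • X) = (a : ℂ) • P2 X := by
  apply ext_e
  intro j l
  rw [LinearMap.smul_apply, P2_e, P2_e, al_smul, be_smul, map_mul, Complex.conj_ofReal]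
  module

lemma al_zero : al 0 = 0 := by apply Complex.ext <;> simp [al]
lemma be_zero : be 0 = 0 := by apply Complex.ext <;> simp [be]

lemma P1_zero : P1 0 = 0 := by
  apply ext_e
  intro j l
  rw [P1_e, al_zero, be_zero]
  simp

lemma P2_zero : P2 0 = 0 := by
  apply ext_e
  intro j l
  rw [P2_e, al_zero, be_zero]
  simp

lemma inv_rot {g : SL2} (h : (mat g)ᵀ * mat g = 1) : (mat g⁻¹)ᵀ * mat g⁻¹ = 1 :=
  (K.inv_mem (x := (g, 1)) ⟨h, by simp⟩).1

lemma cis_inv {g : SL2} (h : (mat g)ᵀ * mat g = 1) : cis (mat g⁻¹) = (cis (mat g))⁻¹ := by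
  have h1 := cis_mul h (inv_rot h)
  rw [mul_inv_cancel] at h1
  have h2 : cis (mat 1) = 1 := by simp [cis]
  rw [h2] at h1
  exact eq_inv_of_mul_eq_one_right h1.symm

lemma cis_conj' {g : SL2} (h : (mat g)ᵀ * mat g = 1) : conj (cis (mat g)) = (cis (mat g))⁻¹ := by
  have h1 := cis_conj h
  exact eq_inv_of_mul_eq_one_right h1

lemma al_Ad {g : SL2} (h : (mat g)ᵀ * mat g = 1) (X : M2) : al (mat g * X * mat g⁻¹) = al X := by
  have hi := inv_rot h
  rw [al_mul, al_mul, (cis_rot h).1, (cis_rot h).2, (cis_rot hi).1, (cis_rot hi).2, cis_inv h]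
  have := cis_ne h
  field_simp
  simp

lemma be_Ad {g : SL2} (h : (mat g)ᵀ * mat g = 1) (X : M2) :
    be (mat g * X * mat g⁻¹) = cis (mat g) ^ 2 * be X := by
  have hi := inv_rot h
  rw [be_mul, al_mul, be_mul, (cis_rot h).1, (cis_rot h).2, (cis_rot hi).1, (cis_rot hi).2,
    cis_inv h, map_inv₀, cis_conj' h, inv_inv]
  ring

lemma kap_P1 (k : K) (X : M2) :
    kap k * P1 X = P1 (mat k.1.1 * X * mat k.1.1⁻¹) * kap k := by
  apply ext_e
  intro j l
  have h0 := cis_ne k.2.1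
  rw [Module.End.mul_apply, Module.End.mul_apply, kap_e, map_smul, P1_e, P1_e, al_Ad k.2.1,
    be_Ad k.2.1]
  simp only [map_smul, map_add, map_sub, kap_e, map_mul, map_pow, cis_conj' k.2.1]
  have e1 : cis (mat k.1.1) ^ (-2 * (j - 1)) = cis (mat k.1.1) ^ (-2 * j) * cis (mat k.1.1) ^ 2 := by
    rw [show -2 * (j - 1) = -2 * j + 2 by ring, zpow_add₀ h0]
    norm_cast
  have e2 : cis (mat k.1.1) ^ (-2 * (j + 1)) =
      cis (mat k.1.1) ^ (-2 * j) * (cis (mat k.1.1))⁻¹ ^ 2 := by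
    rw [show -2 * (j + 1) = -2 * j + (-2) by ring, zpow_add₀ h0, inv_pow, _root_.zpow_neg _ 2]
    norm_cast
  rw [e1, e2]
  module

lemma kap_P2 (k : K) (X : M2) :
    kap k * P2 X = P2 (mat k.1.2 * X * mat k.1.2⁻¹) * kap k := by
  apply ext_e
  intro j l
  have h0 := cis_ne k.2.2
  rw [Module.End.mul_apply, Module.End.mul_apply, kap_e, map_smul, P2_e, P2_e, al_Ad k.2.2,
    be_Ad k.2.2]
  simp only [map_smul, map_add, map_sub, kap_e, map_mul, map_pow, cis_conj' k.2.2]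
  have e1 : cis (mat k.1.2) ^ (-2 * (l - 1)) = cis (mat k.1.2) ^ (-2 * l) * cis (mat k.1.2) ^ 2 := by
    rw [show -2 * (l - 1) = -2 * l + 2 by ring, zpow_add₀ h0]
    norm_cast
  have e2 : cis (mat k.1.2) ^ (-2 * (l + 1)) =
      cis (mat k.1.2) ^ (-2 * l) * (cis (mat k.1.2))⁻¹ ^ 2 := by
    rw [show -2 * (l + 1) = -2 * l + (-2) by ring, zpow_add₀ h0, inv_pow, _root_.zpow_neg _ 2]
    norm_cast
  rw [e1, e2]
  module

/-- the rotation by `θ` -/
noncomputable def rt (θ : ℝ) : SL2 :=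
  ⟨!![Real.cos θ, -Real.sin θ; Real.sin θ, Real.cos θ], by
    rw [Matrix.det_fin_two_of]
    nlinarith [Real.sin_sq_add_cos_sq θ]⟩

lemma rt_mem (θ : ℝ) : (mat (rt θ))ᵀ * mat (rt θ) = 1 := by
  show (!![Real.cos θ, -Real.sin θ; Real.sin θ, Real.cos θ] : M2)ᵀ *
    !![Real.cos θ, -Real.sin θ; Real.sin θ, Real.cos θ] = 1
  ext i j
  have := Real.sin_sq_add_cos_sq θ
  fin_cases i <;> fin_cases j <;> simp [Matrix.mul_apply, Fin.sum_univ_two] <;> nlinarith

lemma cis_rt (θ : ℝ) : cis (mat (rt θ)) = Complex.exp (θ * I) := by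
  show ((Real.cos θ : ℝ) : ℂ) + ((Real.sin θ : ℝ) : ℂ) * I = _
  rw [Complex.exp_mul_I, Complex.ofReal_cos, Complex.ofReal_sin]

lemma kap_apply (k : K) (v : V) (j l : ℤ) :
    kap k v (j, l) = cis (mat k.1.1) ^ (-2 * j) * cis (mat k.1.2) ^ (-2 * l) * v (j, l) := by
  induction v using ind_e with
  | h0 => simp
  | hadd v w hv hw => rw [map_add, Finsupp.add_apply, hv, hw, Finsupp.add_apply]; ring
  | hsmul a v hv => rw [map_smul, Finsupp.smul_apply, hv, Finsupp.smul_apply, smul_eq_mul,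
      smul_eq_mul]; ring
  | he j' l' =>
    rw [kap_e, Finsupp.smul_apply, smul_eq_mul]
    by_cases h : (j', l') = (j, l)
    · rw [Prod.mk.injEq] at h
      rw [h.1, h.2]
    · rw [e, Finsupp.single_apply, if_neg h, mul_zero, mul_zero]

lemma zpow_eq {a b : ℤ} (h : ∀ θ : ℝ, Complex.exp (θ * I) ^ a = Complex.exp (θ * I) ^ b) :
    a = b := by
  by_contra hab
  have h0 : (a : ℝ) - b ≠ 0 := by
    intro h0
    apply hab
    have : (a : ℝ) = b := by linarith
    exact_mod_cast this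
  have h1 := h (Real.pi / (a - b))
  have hne := Complex.exp_ne_zero ((Real.pi / (a - b) : ℝ) * I)
  have h2 : Complex.exp ((Real.pi / (a - b) : ℝ) * I) ^ (a - b) = 1 := by
    rw [zpow_sub₀ hne, h1, div_self (zpow_ne_zero _ hne)]
  rw [← Complex.exp_int_mul] at h2
  have h3 : ((a - b : ℤ) : ℂ) * ((Real.pi / (a - b) : ℝ) * I) = Real.pi * I := by
    push_cast
    have : (a : ℂ) - b ≠ 0 := by exact_mod_cast h0
    field_simp
  rw [h3, Complex.exp_pi_mul_I] at h2
  norm_num at h2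

lemma weight_coeff {m n : ℤ} {v : V} (h : IsWeight kapHom m n v) {j l : ℤ} (hv : v (j, l) ≠ 0) :
    m = -2 * j ∧ n = -2 * l := by
  have key : ∀ θ φ : ℝ, Complex.exp (θ * I) ^ (-2 * j) * Complex.exp (φ * I) ^ (-2 * l) =
      Complex.exp (θ * I) ^ m * Complex.exp (φ * I) ^ n := by
    intro θ φ
    have h1 := h ⟨(rt θ, rt φ), rt_mem θ, rt_mem φ⟩
    have h2 := DFunLike.congr_fun h1 (j, l)
    rw [show kapHom _ = kap _ from rfl, kap_apply, Finsupp.smul_apply, smul_eq_mul] at h2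
    have h3 := mul_right_cancel₀ hv h2
    simpa only [cis_rt] using h3
  constructor
  · apply zpow_eq
    intro θ
    have := key θ 0
    simpa using this.symm
  · apply zpow_eq
    intro φ
    have := key 0 φ
    simpa using this.symm

lemma weight_form {m n : ℤ} {v : V} (h : IsWeight kapHom m n v) :
    v = 0 ∨ ∃ j l : ℤ, m = -2 * j ∧ n = -2 * l ∧ ∃ a : ℂ, v = a • e j l := by
  by_cases h0 : v = 0
  · exact Or.inl h0
  · right
    obtain ⟨⟨j, l⟩, hjl⟩ := Finsupp.ne_iff.mp h0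
    rw [Finsupp.zero_apply] at hjl
    obtain ⟨hm, hn⟩ := weight_coeff h hjl
    refine ⟨j, l, hm, hn, v (j, l), ?_⟩
    ext ⟨j', l'⟩
    rw [Finsupp.smul_apply, e, Finsupp.single_apply, smul_eq_mul]
    by_cases hj : (j, l) = (j', l')
    · rw [if_pos hj, hj, mul_one]
    · rw [if_neg hj, mul_zero]
      by_contra hne
      obtain ⟨hm', hn'⟩ := weight_coeff h hne
      apply hj
      rw [Prod.mk.injEq]
      constructor <;> omega

lemma weight_e (j l : ℤ) : IsWeight kapHom (-2 * j) (-2 * l) (e j l) := fun k => kap_e k j l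

lemma mem_of_e {W : Submodule ℂ V} (h : ∀ j l, e j l ∈ W) : W = ⊤ := by
  rw [eq_top_iff]
  intro v _
  exact ind_e (P := fun v => v ∈ W) W.zero_mem (fun _ _ => W.add_mem) (fun a _ => W.smul_mem a) h v

/-- elements of the Lie algebra -/
def mk1 (X : M2) (h : X.trace = 0) : Lg := ⟨(X, 0), h, by simp⟩
/-- elements of the Lie algebra -/
def mk2 (X : M2) (h : X.trace = 0) : Lg := ⟨(0, X), by simp, h⟩

lemma Pi_mk1 (X : M2) (h : X.trace = 0) : Pi' (mk1 X h) = P1 X := by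
  show P1 X + P2 0 = P1 X
  rw [P2_zero, add_zero]

lemma Pi_mk2 (X : M2) (h : X.trace = 0) : Pi' (mk2 X h) = P2 X := by
  show P1 0 + P2 X = P2 X
  rw [P1_zero, zero_add]

/-- generators of `𝔰𝔩₂` -/
def Hm : M2 := !![1, 0; 0, -1]
/-- generators of `𝔰𝔩₂` -/
def Bm : M2 := !![0, 1; 1, 0]

lemma tr_Hm : Hm.trace = 0 := by simp [Hm, Matrix.trace_fin_two]
lemma tr_Bm : Bm.trace = 0 := by simp [Bm, Matrix.trace_fin_two]
lemma al_Hm : al Hm = 0 := by apply Complex.ext <;> simp [al, Hm]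
lemma be_Hm : be Hm = 1 := by apply Complex.ext <;> simp [be, Hm]
lemma al_Bm : al Bm = 0 := by apply Complex.ext <;> simp [al, Bm]
lemma be_Bm : be Bm = I := by apply Complex.ext <;> simp [be, Bm]

lemma gen_step {f : ℤ → V} {W : Submodule ℂ V}
    (h1 : ∀ j, f j ∈ W → (j : ℂ) • (f (j + 1) - f (j - 1)) ∈ W)
    (h2 : ∀ j, f j ∈ W → (j : ℂ) • ((-I) • f (j - 1) + (-I) • f (j + 1)) ∈ W)
    (hm : f (-1) ∈ W) (h0 : f 0 ∈ W) (hp : f 1 ∈ W) : ∀ j, f j ∈ W := by
  have up : ∀ j : ℤ, j ≠ 0 → f j ∈ W → f (j + 1) ∈ W := by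
    intro j hj hf
    have h3 := W.smul_mem (2 * (j : ℂ))⁻¹ (W.add_mem (h1 j hf) (W.smul_mem I (h2 j hf)))
    have hj' : (j : ℂ) ≠ 0 := by exact_mod_cast hj
    have h4 : (2 * (j : ℂ))⁻¹ • ((j : ℂ) • (f (j + 1) - f (j - 1)) +
        I • (j : ℂ) • ((-I) • f (j - 1) + (-I) • f (j + 1))) = f (j + 1) := by
      have h5 : I • (j : ℂ) • ((-I) • f (j - 1) + (-I) • f (j + 1)) =
          (j : ℂ) • (f (j - 1) + f (j + 1)) := by
        rw [smul_comm, ← smul_add, smul_smul I (-I), mul_neg, Complex.I_mul_I, neg_neg, one_smul]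
      rw [h5, ← smul_add, smul_smul, show f (j + 1) - f (j - 1) + (f (j - 1) + f (j + 1)) =
        (2 : ℂ) • f (j + 1) by module, smul_smul]
      have : (2 * (j : ℂ))⁻¹ * j * 2 = 1 := by field_simp
      rw [this, one_smul]
    rwa [h4] at h3
  have down : ∀ j : ℤ, j ≠ 0 → f j ∈ W → f (j - 1) ∈ W := by
    intro j hj hf
    have h3 := W.smul_mem (2 * (j : ℂ))⁻¹ (W.sub_mem (W.smul_mem I (h2 j hf)) (h1 j hf))
    have hj' : (j : ℂ) ≠ 0 := by exact_mod_cast hj
    have h4 : (2 * (j : ℂ))⁻¹ • (I • (j : ℂ) • ((-I) • f (j - 1) + (-I) • f (j + 1)) -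
        (j : ℂ) • (f (j + 1) - f (j - 1))) = f (j - 1) := by
      have h5 : I • (j : ℂ) • ((-I) • f (j - 1) + (-I) • f (j + 1)) =
          (j : ℂ) • (f (j - 1) + f (j + 1)) := by
        rw [smul_comm, ← smul_add, smul_smul I (-I), mul_neg, Complex.I_mul_I, neg_neg, one_smul]
      rw [h5, ← smul_sub, smul_smul, show f (j - 1) + f (j + 1) - (f (j + 1) - f (j - 1)) =
        (2 : ℂ) • f (j - 1) by module, smul_smul]
      have : (2 * (j : ℂ))⁻¹ * j * 2 = 1 := by field_simp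
      rw [this, one_smul]
    rwa [h4] at h3
  have hpos : ∀ n : ℕ, f (n + 1) ∈ W := by
    intro n
    induction n with
    | zero => simpa using hp
    | succ n ih =>
      have := up (n + 1) (by positivity) ih
      push_cast
      exact this
  have hneg : ∀ n : ℕ, f (-(n + 1)) ∈ W := by
    intro n
    induction n with
    | zero => simpa using hm
    | succ n ih =>
      have := down (-(n + 1)) (by omega) ih
      push_cast
      have h6 : (-(1 + ((n : ℤ) + 1)) : ℤ) = -((n : ℤ) + 1) - 1 := by ring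
      have h7 : (-((n : ℤ) + 1 + 1) : ℤ) = -((n : ℤ) + 1) - 1 := by ring
      rw [h7]
      exact this
  intro j
  rcases lt_trichotomy j 0 with h | h | h
  · obtain ⟨n, hn⟩ := Int.eq_negSucc_of_lt_zero h
    have := hneg n
    rw [hn, Int.negSucc_eq]
    exact this
  · rw [h]
    exact h0
  · obtain ⟨n, rfl⟩ := Int.eq_ofNat_of_zero_le h.le
    obtain ⟨k, rfl⟩ : ∃ k, n = k + 1 := ⟨n - 1, by omega⟩
    exact_mod_cast hpos k

/-- the Harish-Chandra module -/
noncomputable def MM : HCModule V where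
  π := Pi'
  κ := kapHom
  π_add X Y := by
    show P1 (X.1.1 + Y.1.1) + P2 (X.1.2 + Y.1.2) = (P1 X.1.1 + P2 X.1.2) + (P1 Y.1.1 + P2 Y.1.2)
    rw [P1_add, P2_add]
    abel
  π_smul a X := by
    show P1 (a • X.1.1) + P2 (a • X.1.2) = (a : ℂ) • (P1 X.1.1 + P2 X.1.2)
    rw [P1_smul, P2_smul, smul_add]
  π_bracket X Y Z h := by
    show P1 Z.1.1 + P2 Z.1.2 = (P1 X.1.1 + P2 X.1.2) * (P1 Y.1.1 + P2 Y.1.2) -
      (P1 Y.1.1 + P2 Y.1.2) * (P1 X.1.1 + P2 X.1.2)
    rw [h]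
    show P1 (X.1.1 * Y.1.1 - Y.1.1 * X.1.1) + P2 (X.1.2 * Y.1.2 - Y.1.2 * X.1.2) = _
    rw [P1_bracket _ _ X.2.1 Y.2.1, P2_bracket _ _ X.2.2 Y.2.2]
    simp only [add_mul, mul_add]
    rw [P1_comm X.1.1 Y.1.2, P1_comm Y.1.1 X.1.2]
    abel
  κ_π k X Y h := by
    show kap k * (P1 X.1.1 + P2 X.1.2) = (P1 Y.1.1 + P2 Y.1.2) * kap k
    rw [h, mul_add, add_mul, kap_P1, kap_P2]
  spanned := by
    apply mem_of_e
    intro j l
    exact Submodule.subset_span ⟨_, _, weight_e j l⟩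
  π_left X hX m n v hv := by
    show (P1 X.1.1 + P2 X.1.2) v = _
    rw [hX, P2_zero, add_zero]
    show P1 !![0, -1; 1, 0] v = _
    rcases weight_form hv with rfl | ⟨j, l, rfl, rfl, a, rfl⟩
    · simp
    · have h1 : al !![0, -1; 1, 0] = I := by apply Complex.ext <;> simp [al]
      have h2 : be !![0, -1; 1, 0] = 0 := by apply Complex.ext <;> simp [be]
      rw [map_smul, P1_e, h1, h2]
      push_cast
      simp only [map_zero, zero_smul]
      module
  π_right X hX m n v hv := by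
    show (P1 X.1.1 + P2 X.1.2) v = _
    rw [hX, P1_zero, zero_add]
    show P2 !![0, -1; 1, 0] v = _
    rcases weight_form hv with rfl | ⟨j, l, rfl, rfl, a, rfl⟩
    · simp
    · have h1 : al !![0, -1; 1, 0] = I := by apply Complex.ext <;> simp [al]
      have h2 : be !![0, -1; 1, 0] = 0 := by apply Complex.ext <;> simp [be]
      rw [map_smul, P2_e, h1, h2]
      push_cast
      simp only [map_zero, zero_smul]
      module
  fg := by
    refine ⟨(fun p : ℤ × ℤ => e p.1 p.2) '' ((({-1, 0, 1} : Finset ℤ) ×ˢ {-1, 0, 1} : Finset (ℤ × ℤ)) :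
      Set (ℤ × ℤ)), (Finset.finite_toSet _).image _, ?_⟩
    intro W hS hW
    have hmem : ∀ j l : ℤ, (j = -1 ∨ j = 0 ∨ j = 1) → (l = -1 ∨ l = 0 ∨ l = 1) → e j l ∈ W := by
      intro j l hj hl
      apply hS
      refine ⟨(j, l), ?_, rfl⟩
      simp only [Finset.coe_product, Set.mem_prod, Finset.mem_coe, Finset.mem_insert,
        Finset.mem_singleton]
      exact ⟨hj, hl⟩
    have a1 : ∀ l j, e j l ∈ W → (j : ℂ) • (e (j + 1) l - e (j - 1) l) ∈ W := by
      intro l j h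
      have h1 := hW (mk1 Hm tr_Hm) _ h
      rw [Pi_mk1, P1_e, al_Hm, be_Hm] at h1
      have h2 : (j : ℂ) • ((-2 * (0 : ℂ)) • e j l - (1 : ℂ) • e (j - 1) l + conj (1 : ℂ) • e (j + 1) l)
          = (j : ℂ) • (e (j + 1) l - e (j - 1) l) := by
        rw [map_one]; module
      rwa [h2] at h1
    have a2 : ∀ l j, e j l ∈ W → (j : ℂ) • ((-I) • e (j - 1) l + (-I) • e (j + 1) l) ∈ W := by
      intro l j h
      have h1 := hW (mk1 Bm tr_Bm) _ h
      rw [Pi_mk1, P1_e, al_Bm, be_Bm] at h1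
      have h2 : (j : ℂ) • ((-2 * (0 : ℂ)) • e j l - I • e (j - 1) l + conj I • e (j + 1) l)
          = (j : ℂ) • ((-I) • e (j - 1) l + (-I) • e (j + 1) l) := by
        rw [Complex.conj_I]; module
      rwa [h2] at h1
    have b1 : ∀ j l, e j l ∈ W → (l : ℂ) • (e j (l + 1) - e j (l - 1)) ∈ W := by
      intro j l h
      have h1 := hW (mk2 Hm tr_Hm) _ h
      rw [Pi_mk2, P2_e, al_Hm, be_Hm] at h1
      have h2 : (l : ℂ) • ((-2 * (0 : ℂ)) • e j l - (1 : ℂ) • e j (l - 1) + conj (1 : ℂ) • e j (l + 1))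
          = (l : ℂ) • (e j (l + 1) - e j (l - 1)) := by
        rw [map_one]; module
      rwa [h2] at h1
    have b2 : ∀ j l, e j l ∈ W → (l : ℂ) • ((-I) • e j (l - 1) + (-I) • e j (l + 1)) ∈ W := by
      intro j l h
      have h1 := hW (mk2 Bm tr_Bm) _ h
      rw [Pi_mk2, P2_e, al_Bm, be_Bm] at h1
      have h2 : (l : ℂ) • ((-2 * (0 : ℂ)) • e j l - I • e j (l - 1) + conj I • e j (l + 1))
          = (l : ℂ) • ((-I) • e j (l - 1) + (-I) • e j (l + 1)) := by
        rw [Complex.conj_I]; module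
      rwa [h2] at h1
    have c1 : ∀ l : ℤ, (l = -1 ∨ l = 0 ∨ l = 1) → ∀ j, e j l ∈ W := by
      intro l hl
      exact gen_step (f := fun j => e j l) (a1 l) (a2 l) (hmem _ _ (by simp) hl)
        (hmem _ _ (by simp) hl) (hmem _ _ (by simp) hl)
    apply mem_of_e
    intro j
    exact gen_step (f := fun l => e j l) (b1 j) (b2 j) (c1 _ (by simp) j) (c1 _ (by simp) j)
      (c1 _ (by simp) j)
  admissible m n := by
    refine ⟨{e (-(m / 2)) (-(n / 2))}, Set.finite_singleton _, ?_⟩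
    intro v hv
    rcases weight_form hv with rfl | ⟨j, l, hm, hn, a, rfl⟩
    · exact Submodule.zero_mem _
    · have h1 : j = -(m / 2) := by omega
      have h2 : l = -(n / 2) := by omega
      rw [← h1, ← h2]
      exact Submodule.smul_mem _ _ (Submodule.subset_span rfl)

end Pool.Agent.NH57.Sob
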