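import Mathlib
import Pool.Agent.NH57.Sob.Mod2

/-!
The action of `SL₂(ℝ) × SL₂(ℝ)` on the torus and on the continuous functions on the torus.
-/

set_option autoImplicit false

namespace Pool.Agent.NH57.Sob

open Matrix Complex ComplexConjugate

lemma normSq_al_be (g : SL2) : normSq (al (mat g)) = normSq (be (mat g)) + 1 := by
  have h : (mat g).det = 1 := g.2
  rw [Matrix.det_fin_two] at h
  simp only [al, be, Complex.normSq_apply]
  linarith

lemma al_ne (g : SL2) : al (mat g) ≠ 0 := by
  intro h
  have h1 := normSq_al_be g
  rw [h, map_zero] at h1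
  have := Complex.normSq_nonneg (be (mat g))
  linarith

lemma zconj (z : Circle) : (z : ℂ) * conj (z : ℂ) = 1 := by
  rw [Complex.mul_conj, Circle.normSq_coe, Complex.ofReal_one]

/-- the numerator -/
noncomputable def num (g : SL2) (z : Circle) : ℂ := al (mat g) * z + be (mat g)

/-- the denominator -/
noncomputable def den (g : SL2) (z : Circle) : ℂ := conj (be (mat g)) * z + conj (al (mat g))

lemma den_eq (g : SL2) (z : Circle) : den g z = z * conj (num g z) := by
  have h := zconj z
  simp only [den, num, map_add, map_mul]
  linear_combination (- conj (al (mat g))) * h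

lemma den_ne (g : SL2) (z : Circle) : den g z ≠ 0 := by
  intro h
  have h1 : conj (be (mat g)) * z = - conj (al (mat g)) := by
    simp only [den] at h
    linear_combination h
  have h2 := congrArg Complex.normSq h1
  rw [map_mul, Circle.normSq_coe, mul_one, Complex.normSq_neg, Complex.normSq_conj,
    Complex.normSq_conj, normSq_al_be] at h2
  linarith

lemma norm_num_den (g : SL2) (z : Circle) : ‖num g z / den g z‖ = 1 := by
  rw [norm_div, div_eq_one_iff_eq (norm_ne_zero_iff.mpr (den_ne g z)), den_eq, norm_mul,
    Circle.norm_coe, one_mul, RCLike.norm_conj]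

/-- the action on the circle -/
noncomputable def act (g : SL2) (z : Circle) : Circle :=
  ⟨num g z / den g z, mem_sphere_zero_iff_norm.2 (norm_num_den g z)⟩

lemma act_coe (g : SL2) (z : Circle) : (act g z : ℂ) = num g z / den g z := rfl

lemma act_one (z : Circle) : act 1 z = z := by
  apply Circle.ext
  rw [act_coe, num, den, map_one, al_one, be_one]
  simp

lemma act_mul (g h : SL2) (z : Circle) : act (g * h) z = act g (act h z) := by
  apply Circle.ext
  have h1 : num (g * h) z = al (mat g) * num h z + be (mat g) * den h z := by
    simp only [num, den, map_mul, al_mul, be_mul]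
    ring
  have h2 : den (g * h) z = conj (be (mat g)) * num h z + conj (al (mat g)) * den h z := by
    simp only [num, den, map_mul, al_mul, be_mul, map_add, Complex.conj_conj]
    ring
  have h3 := den_ne h z
  have h4 := den_ne g (act h z)
  have h5 := den_ne (g * h) z
  have h6 : num g (act h z) = al (mat g) * (num h z / den h z) + be (mat g) := rfl
  have h7 : den g (act h z) = conj (be (mat g)) * (num h z / den h z) + conj (al (mat g)) := rfl
  rw [act_coe, act_coe, div_eq_div_iff h5 h4, h1, h2, h6, h7]
  generalize num h z = N at *
  generalize den h z = D at *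
  field_simp

lemma continuous_al : Continuous (fun g : SL2 => al (mat g)) := by
  have h : ∀ i j : Fin 2, Continuous (fun g : SL2 => mat g i j) := by
    intro i j
    exact (continuous_apply j).comp ((continuous_apply i).comp continuous_subtype_val)
  have h1 : (fun g : SL2 => al (mat g)) = fun g : SL2 =>
      (((mat g 0 0 + mat g 1 1) / 2 : ℝ) : ℂ) + (((mat g 1 0 - mat g 0 1) / 2 : ℝ) : ℂ) * I := by
    funext g
    apply Complex.ext <;> simp [al]
  rw [h1]
  have h00 := h 0 0
  have h11 := h 1 1
  have h10 := h 1 0
  have h01 := h 0 1
  fun_prop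

lemma continuous_be : Continuous (fun g : SL2 => be (mat g)) := by
  have h : ∀ i j : Fin 2, Continuous (fun g : SL2 => mat g i j) := by
    intro i j
    exact (continuous_apply j).comp ((continuous_apply i).comp continuous_subtype_val)
  have h1 : (fun g : SL2 => be (mat g)) = fun g : SL2 =>
      (((mat g 0 0 - mat g 1 1) / 2 : ℝ) : ℂ) + (((mat g 1 0 + mat g 0 1) / 2 : ℝ) : ℂ) * I := by
    funext g
    apply Complex.ext <;> simp [be]
  rw [h1]
  have h00 := h 0 0
  have h11 := h 1 1
  have h10 := h 1 0
  have h01 := h 0 1
  fun_prop

lemma continuous_coe_circle : Continuous (fun z : Circle => (z : ℂ)) := continuous_induced_dom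

lemma continuous_act : Continuous (fun p : SL2 × Circle => act p.1 p.2) := by
  have h1 : Continuous (fun p : SL2 × Circle => num p.1 p.2 / den p.1 p.2) := by
    have ha := continuous_al.comp (continuous_fst (X := SL2) (Y := Circle))
    have hb := continuous_be.comp (continuous_fst (X := SL2) (Y := Circle))
    have hz := continuous_coe_circle.comp (continuous_snd (X := SL2) (Y := Circle))
    apply Continuous.div
    · exact (ha.mul hz).add hb
    · exact ((Complex.continuous_conj.comp hb).mul hz).add (Complex.continuous_conj.comp ha)
    · intro p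
      exact den_ne p.1 p.2
  exact Continuous.subtype_mk h1 _

/-- the torus -/
abbrev T2 : Type := Circle × Circle

/-- continuous functions on the torus -/
abbrev E : Type := C(T2, ℂ)

/-- the action on the torus -/
noncomputable def Act (g : G) (x : T2) : T2 := (act g.1 x.1, act g.2 x.2)

lemma Act_one (x : T2) : Act 1 x = x := by
  show (act 1 x.1, act 1 x.2) = x
  rw [act_one, act_one]

lemma Act_mul (g h : G) (x : T2) : Act (g * h) x = Act g (Act h x) := by
  show (act (g.1 * h.1) x.1, act (g.2 * h.2) x.2) = _
  rw [act_mul, act_mul]
  rfl

lemma continuous_Act : Continuous (fun p : G × T2 => Act p.1 p.2) := by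
  have a1 : Continuous (fun p : G × T2 => (p.1.1, p.2.1)) :=
    (continuous_fst.comp continuous_fst).prodMk (continuous_fst.comp continuous_snd)
  have a2 : Continuous (fun p : G × T2 => (p.1.2, p.2.2)) :=
    (continuous_snd.comp continuous_fst).prodMk (continuous_snd.comp continuous_snd)
  have h1 := continuous_act.comp a1
  have h2 := continuous_act.comp a2
  exact h1.prodMk h2

/-- the action on the torus as a map into the continuous maps -/
noncomputable def ActC : C(G, C(T2, T2)) :=
  ContinuousMap.curry ⟨fun p : G × T2 => Act p.1 p.2, continuous_Act⟩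

lemma ActC_apply (g : G) (x : T2) : ActC g x = Act g x := rfl

/-- the action on functions -/
noncomputable def rhoFun (g : G) : E →L[ℂ] E :=
  LinearMap.mkContinuous
    { toFun := fun f => f.comp (ActC g⁻¹)
      map_add' := fun _ _ => rfl
      map_smul' := fun _ _ => rfl } 1 (by
    intro f
    rw [one_mul, ContinuousMap.norm_le _ (norm_nonneg f)]
    intro x
    exact f.norm_coe_le_norm _)

lemma rhoFun_apply (g : G) (f : E) (x : T2) : rhoFun g f x = f (Act g⁻¹ x) := rfl

/-- the representation on functions -/
noncomputable def rho : G →* (E →L[ℂ] E) where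
  toFun := rhoFun
  map_one' := by
    ext f x
    rw [rhoFun_apply, inv_one, Act_one]
    rfl
  map_mul' g h := by
    ext f x
    rw [rhoFun_apply, _root_.mul_inv_rev, Act_mul]
    rfl

lemma rho_apply (g : G) (f : E) (x : T2) : rho g f x = f (Act g⁻¹ x) := rfl

lemma continuous_rho : Continuous (fun p : G × E => rho p.1 p.2) := by
  have h1 : Continuous (fun p : G × E => ActC p.1⁻¹) :=
    ActC.continuous.comp (continuous_inv.comp continuous_fst)
  have h2 : Continuous (fun p : G × E => p.2) := continuous_snd
  exact h2.compCM h1

end Pool.Agent.NH57.Sob
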