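import Mathlib
import Pool.Agent.NH57.Sob.Act

/-!
The embedding of the module into the continuous functions on the torus.
-/

set_option autoImplicit false

namespace Pool.Agent.NH57.Sob

open Matrix Complex ComplexConjugate

/-- the characters of the torus -/
noncomputable def ch (j l : ℤ) : E where
  toFun x := ((x.1 ^ j * x.2 ^ l : Circle) : ℂ)
  continuous_toFun := by
    have h1 : Continuous (fun x : T2 => x.1 ^ j * x.2 ^ l) :=
      (continuous_fst.zpow j).mul (continuous_snd.zpow l)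
    exact continuous_coe_circle.comp h1

lemma ch_apply (j l : ℤ) (x : T2) : ch j l x = (x.1 : ℂ) ^ j * (x.2 : ℂ) ^ l := by
  show ((x.1 ^ j * x.2 ^ l : Circle) : ℂ) = _
  rw [Circle.coe_mul, Circle.coe_zpow, Circle.coe_zpow]

lemma ch_mul (j l j' l' : ℤ) : ch j l * ch j' l' = ch (j + j') (l + l') := by
  ext x
  rw [ContinuousMap.mul_apply, ch_apply, ch_apply, ch_apply, zpow_add₀ (Circle.coe_ne_zero _),
    zpow_add₀ (Circle.coe_ne_zero _)]
  ring

lemma ch_zero : ch 0 0 = 1 := by
  ext x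
  rw [ch_apply]
  simp

lemma ch_star (j l : ℤ) : star (ch j l) = ch (-j) (-l) := by
  ext x
  rw [ContinuousMap.star_apply, ch_apply, ch_apply, star_mul', star_zpow₀, star_zpow₀]
  have h : ∀ z : Circle, star (z : ℂ) = (z : ℂ)⁻¹ := by
    intro z
    rw [← Circle.coe_inv, Circle.coe_inv_eq_conj]
    rfl
  rw [h, h, _root_.inv_zpow', _root_.inv_zpow']

lemma norm_ch (j l : ℤ) : ‖ch j l‖ ≤ 1 := by
  rw [ContinuousMap.norm_le _ zero_le_one]
  intro x
  exact (Circle.norm_coe _).le

/-- the embedding -/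
noncomputable def io : V →ₗ[ℂ] E := lin ch

lemma io_e (j l : ℤ) : io (e j l) = ch j l := lin_e _ _ _

/-- the characters as homomorphisms -/
noncomputable def chHom (p : ℤ × ℤ) : T2 →* ℂ where
  toFun x := ((x.1 ^ p.1 * x.2 ^ p.2 : Circle) : ℂ)
  map_one' := by simp
  map_mul' x y := by
    rw [← Circle.coe_mul]
    congr 1
    rw [Prod.fst_mul, Prod.snd_mul, mul_zpow, mul_zpow]
    exact mul_mul_mul_comm _ _ _ _

lemma chHom_inj : Function.Injective chHom := by
  rintro ⟨a, b⟩ ⟨a', b'⟩ h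
  have h1 : ∀ θ φ : ℝ, Complex.exp (θ * I) ^ a * Complex.exp (φ * I) ^ b =
      Complex.exp (θ * I) ^ a' * Complex.exp (φ * I) ^ b' := by
    intro θ φ
    have := DFunLike.congr_fun h ((Circle.exp θ, Circle.exp φ) : T2)
    have h2 : ∀ c d : ℤ, chHom (c, d) ((Circle.exp θ, Circle.exp φ) : T2) =
        Complex.exp (θ * I) ^ c * Complex.exp (φ * I) ^ d := by
      intro c d
      show ((Circle.exp θ ^ c * Circle.exp φ ^ d : Circle) : ℂ) = _
      rw [Circle.coe_mul, Circle.coe_zpow, Circle.coe_zpow, Circle.coe_exp, Circle.coe_exp]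
    rwa [h2, h2] at this
  rw [Prod.mk.injEq]
  constructor
  · apply zpow_eq
    intro θ
    simpa using h1 θ 0
  · apply zpow_eq
    intro φ
    simpa using h1 0 φ

lemma io_inj : Function.Injective io := by
  have h1 : LinearIndependent ℂ (fun p : ℤ × ℤ => (chHom p : T2 → ℂ)) :=
    (linearIndependent_monoidHom T2 ℂ).comp chHom chHom_inj
  have h2 : ∀ v : V, (fun x => io v x) =
      Finsupp.linearCombination ℂ (fun p : ℤ × ℤ => (chHom p : T2 → ℂ)) v := by
    intro v
    induction v using ind_e with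
    | h0 => rw [map_zero, map_zero]; rfl
    | hadd v w hv hw => rw [map_add, map_add, ← hv, ← hw]; rfl
    | hsmul a v hv => rw [map_smul, map_smul, ← hv]; rfl
    | he j l =>
      rw [io_e, e, Finsupp.linearCombination_single, one_smul]
      rfl
  intro v w h
  apply h1
  rw [← h2, ← h2, h]

lemma range_io : (LinearMap.range io : Submodule ℂ E) = Submodule.span ℂ
    (Set.range (fun p : ℤ × ℤ => ch p.1 p.2)) := by
  rw [io, lin, Finsupp.range_linearCombination]

/-- the star subalgebra of trigonometric polynomials -/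
noncomputable def trig : StarSubalgebra ℂ E where
  toSubalgebra := Algebra.adjoin ℂ (Set.range (fun p : ℤ × ℤ => ch p.1 p.2))
  star_mem' := by
    change Algebra.adjoin ℂ (Set.range (fun p : ℤ × ℤ => ch p.1 p.2)) ≤
      star (Algebra.adjoin ℂ (Set.range (fun p : ℤ × ℤ => ch p.1 p.2)))
    refine Algebra.adjoin_le ?_
    rintro - ⟨⟨j, l⟩, rfl⟩
    apply Algebra.subset_adjoin
    exact ⟨(-j, -l), (ch_star j l).symm⟩

lemma trig_coe : Subalgebra.toSubmodule trig.toSubalgebra = LinearMap.range io := by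
  rw [range_io]
  apply Algebra.adjoin_eq_span_of_subset
  refine Set.Subset.trans ?_ Submodule.subset_span
  intro x hx
  refine Submonoid.closure_induction (fun _ => id) ⟨(0, 0), ch_zero⟩ ?_ hx
  rintro - - - - ⟨⟨j, l⟩, rfl⟩ ⟨⟨j', l'⟩, rfl⟩
  exact ⟨(j + j', l + l'), (ch_mul _ _ _ _).symm⟩

lemma mem_trig {f : E} : f ∈ trig ↔ ∃ v, io v = f := by
  have h : f ∈ trig ↔ f ∈ Subalgebra.toSubmodule trig.toSubalgebra := Iff.rfl
  rw [h, trig_coe, LinearMap.mem_range]

lemma ch_mem (j l : ℤ) : ch j l ∈ trig := mem_trig.mpr ⟨e j l, io_e j l⟩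

lemma dense_io : DenseRange io := by
  have h1 : trig.SeparatesPoints := by
    intro x y hxy
    by_cases h : x.1 = y.1
    · have h2 : x.2 ≠ y.2 := fun h2 => hxy (Prod.ext h h2)
      refine ⟨_, ⟨ch 0 1, ch_mem 0 1, rfl⟩, ?_⟩
      intro h3
      apply h2
      apply Circle.ext
      simpa [ch_apply] using h3
    · refine ⟨_, ⟨ch 1 0, ch_mem 1 0, rfl⟩, ?_⟩
      intro h3
      apply h
      apply Circle.ext
      simpa [ch_apply] using h3
  have h2 := ContinuousMap.starSubalgebra_topologicalClosure_eq_top_of_separatesPoints trig h1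
  intro f
  have h3 : f ∈ trig.topologicalClosure := by rw [h2]; trivial
  have h4 : f ∈ closure (trig : Set E) := h3
  have h5 : (trig : Set E) = Set.range io := by
    ext g
    exact mem_trig
  rwa [h5] at h4

lemma act_rot {g : SL2} (h : (mat g)ᵀ * mat g = 1) (z : Circle) :
    (act g⁻¹ z : ℂ) = (cis (mat g))⁻¹ ^ 2 * z := by
  have hi := inv_rot h
  rw [act_coe, num, den, (cis_rot hi).1, (cis_rot hi).2, cis_conj' hi, cis_inv h]
  have := cis_ne h
  simp
  ring

lemma rho_kap (k : K) (v : V) : rho k.1 (io v) = io (kap k v) := by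
  induction v using ind_e with
  | h0 => simp
  | hadd v w hv hw => rw [map_add, map_add, hv, hw, map_add, map_add]
  | hsmul a v hv => rw [map_smul, map_smul, hv, map_smul, map_smul]
  | he j l =>
    rw [io_e, kap_e, map_smul, io_e]
    ext x
    rw [rho_apply, ch_apply, ContinuousMap.smul_apply, ch_apply]
    show (act k.1.1⁻¹ x.1 : ℂ) ^ j * (act k.1.2⁻¹ x.2 : ℂ) ^ l = _
    rw [act_rot k.2.1, act_rot k.2.2, smul_eq_mul, mul_zpow, mul_zpow]
    have h1 : ∀ (c : ℂ) (n : ℤ), (c⁻¹ ^ 2) ^ n = c ^ (-2 * n) := by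
      intro c n
      rw [inv_pow, ← zpow_natCast c 2, _root_.inv_zpow', ← _root_.zpow_mul]
      congr 1
      push_cast
      ring
    rw [h1, h1]
    ring

end Pool.Agent.NH57.Sob
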