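import Mathlib
import Pool.Agent.NH57.Sob.Io

/-!
The derivative of the representation on the trigonometric polynomials.
-/

set_option autoImplicit false

namespace Pool.Agent.NH57.Sob

open Matrix Complex ComplexConjugate

lemma deriv_frac (Q : E) (u : ℝ → E) (a b : ℝ → ℂ) (a' b' : ℂ) (ha : HasDerivAt a a' 0)
    (hb : HasDerivAt b b' 0) (ha0 : a 0 = 1) (hb0 : b 0 = 0)
    (hu : ∀ t, u t * (conj (b t) • Q + conj (a t) • 1) = a t • Q + b t • 1)
    (hun : ∀ t, IsUnit (conj (b t) • Q + conj (a t) • (1 : E))) :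
    HasDerivAt u (a' • Q + b' • 1 - Q * (conj b' • Q + conj a' • 1)) 0 := by
  have hN : HasDerivAt (fun t => a t • Q + b t • (1 : E)) (a' • Q + b' • 1) 0 :=
    (ha.smul_const Q).add (hb.smul_const 1)
  have hD : HasDerivAt (fun t => conj (b t) • Q + conj (a t) • (1 : E))
      (conj b' • Q + conj a' • 1) 0 :=
    (hb.star.smul_const Q).add (ha.star.smul_const 1)
  have hD0 : conj (b 0) • Q + conj (a 0) • (1 : E) = ((1 : Eˣ) : E) := by
    rw [ha0, hb0]
    simp
  have hinv : HasFDerivAt (Ring.inverse : E → E) (-ContinuousLinearMap.mulLeftRight ℝ E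
      ((1 : Eˣ)⁻¹ : Eˣ) ((1 : Eˣ)⁻¹ : Eˣ)) (conj (b 0) • Q + conj (a 0) • (1 : E)) := by
    rw [hD0]
    exact hasFDerivAt_ringInverse 1
  have hI := hinv.comp_hasDerivAt 0 hD
  have hprod := hN.mul hI
  have heq : u = fun t => (a t • Q + b t • (1 : E)) * Ring.inverse (conj (b t) • Q + conj (a t) • (1 : E)) := by
    funext t
    rw [← hu, mul_assoc, Ring.mul_inverse_cancel _ (hun t), mul_one]
  rw [heq]
  refine hprod.congr_deriv ?_
  simp only [ha0, hb0, Function.comp_apply]
  simp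
  ring

/-- integral powers -/
lemma deriv_zpow (U : ℝ → E) (U' : E) (hU : HasDerivAt U U' 0) (h1 : ∀ t x, ‖U t x‖ = 1)
    (j : ℤ) (P : ℝ → E) (hP : ∀ t x, P t x = (U t x) ^ j) (W : E)
    (hW : ∀ x, W x = j * (U 0 x) ^ (j - 1) * U' x) : HasDerivAt P W 0 := by
  have hne : ∀ t x, U t x ≠ 0 := by
    intro t x h
    have := h1 t x
    rw [h, norm_zero] at this
    exact zero_ne_one this
  have hconj : ∀ t x, U t x * conj (U t x) = 1 := by
    intro t x
    rw [Complex.mul_conj, Complex.normSq_eq_norm_sq, h1]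
    simp
  have hstar : HasDerivAt (fun t => star (U t)) (star U') 0 := hU.star
  have hrel : ∀ x, conj (U' x) = - (conj (U 0 x)) ^ 2 * U' x := by
    intro x
    have hm := hU.mul hstar
    have hm1 : (fun t => U t * star (U t)) = fun _ => (1 : E) := by
      funext t
      ext y
      exact hconj t y
    have hm2 : HasDerivAt (fun t => U t * star (U t)) (0 : E) 0 := by
      rw [hm1]
      exact hasDerivAt_const _ _
    have hm3 := hm.unique hm2
    have hm4 := DFunLike.congr_fun hm3 x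
    simp only [ContinuousMap.add_apply, ContinuousMap.mul_apply, ContinuousMap.star_apply,
      ContinuousMap.zero_apply] at hm4
    change U' x * conj (U 0 x) + U 0 x * conj (U' x) = 0 at hm4
    have h5 := hconj 0 x
    linear_combination conj (U 0 x) * hm4 - conj (U' x) * h5
  obtain ⟨n, rfl | rfl⟩ := Int.eq_nat_or_neg j
  · have hp := hU.pow n
    have heq : P = fun t => U t ^ n := by
      funext t
      ext x
      rw [hP, ContinuousMap.pow_apply, zpow_natCast]
    rw [heq]
    refine HasDerivAt.congr_deriv hp ?_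
    ext x
    rw [hW]
    simp only [ContinuousMap.mul_apply, ContinuousMap.pow_apply, ContinuousMap.natCast_apply]
    rcases Nat.eq_zero_or_pos n with h0 | h0
    · subst h0
      simp
    · have : ((n : ℤ) - 1) = ((n - 1 : ℕ) : ℤ) := by omega
      rw [this, zpow_natCast]
      push_cast
      ring
  · have hp := hstar.pow n
    have heq : P = fun t => (star (U t)) ^ n := by
      funext t
      ext x
      rw [hP, ContinuousMap.pow_apply, ContinuousMap.star_apply]
      have h6 : star (U t x) = (U t x)⁻¹ := by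
        have := hconj t x
        exact eq_inv_of_mul_eq_one_right this
      rw [h6, inv_pow, _root_.zpow_neg, zpow_natCast]
    rw [heq]
    refine HasDerivAt.congr_deriv hp ?_
    ext x
    rw [hW]
    simp only [ContinuousMap.mul_apply, ContinuousMap.pow_apply, ContinuousMap.natCast_apply,
      ContinuousMap.star_apply]
    rcases Nat.eq_zero_or_pos n with h0 | h0
    · subst h0
      simp
    · have h6 : conj (U 0 x) = (U 0 x)⁻¹ := eq_inv_of_mul_eq_one_right (hconj 0 x)
      have h7 : star (U' x) = - ((U 0 x)⁻¹) ^ 2 * U' x := by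
        rw [← h6]
        exact hrel x
      have h8 : star (U 0 x) = (U 0 x)⁻¹ := h6
      rw [h7, h8]
      have h9 : (U 0 x) ^ (-(n : ℤ) - 1) = ((U 0 x)⁻¹) ^ (n - 1) * ((U 0 x)⁻¹) ^ 2 := by
        rw [← pow_add, inv_pow, ← zpow_natCast, ← _root_.zpow_neg]
        congr 1
        omega
      rw [h9]
      push_cast
      ring

/-- the one parameter group -/
noncomputable def gam (γ : Multiplicative ℝ →* G) (t : ℝ) : G := γ (Multiplicative.ofAdd t)

lemma gam_zero (γ : Multiplicative ℝ →* G) : gam γ 0 = 1 := by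
  rw [gam, ofAdd_zero, map_one]

lemma gam_neg (γ : Multiplicative ℝ →* G) (t : ℝ) : (gam γ t)⁻¹ = gam γ (-t) := by
  rw [gam, gam, ofAdd_neg, map_inv]

lemma hasDeriv_al {f : ℝ → M2} {X : M2} (h : ∀ i j, HasDerivAt (fun t => f t i j) (X i j) 0) :
    HasDerivAt (fun t => al (f t)) (al X) 0 := by
  have e1 : (fun t => al (f t)) = fun t =>
      (((f t 0 0 + f t 1 1) / 2 : ℝ) : ℂ) + (((f t 1 0 - f t 0 1) / 2 : ℝ) : ℂ) * I := by
    funext t
    apply Complex.ext <;> simp [al]
  have e2 : al X = (((X 0 0 + X 1 1) / 2 : ℝ) : ℂ) + (((X 1 0 - X 0 1) / 2 : ℝ) : ℂ) * I := by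
    apply Complex.ext <;> simp [al]
  rw [e1, e2]
  have h1 := (((h 0 0).add (h 1 1)).div_const 2).ofReal_comp
  have h2 := (((h 1 0).sub (h 0 1)).div_const 2).ofReal_comp
  exact h1.add (h2.mul_const I)

lemma hasDeriv_be {f : ℝ → M2} {X : M2} (h : ∀ i j, HasDerivAt (fun t => f t i j) (X i j) 0) :
    HasDerivAt (fun t => be (f t)) (be X) 0 := by
  have e1 : (fun t => be (f t)) = fun t =>
      (((f t 0 0 - f t 1 1) / 2 : ℝ) : ℂ) + (((f t 1 0 + f t 0 1) / 2 : ℝ) : ℂ) * I := by
    funext t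
    apply Complex.ext <;> simp [be]
  have e2 : be X = (((X 0 0 - X 1 1) / 2 : ℝ) : ℂ) + (((X 1 0 + X 0 1) / 2 : ℝ) : ℂ) * I := by
    apply Complex.ext <;> simp [be]
  rw [e1, e2]
  have h1 := (((h 0 0).sub (h 1 1)).div_const 2).ofReal_comp
  have h2 := (((h 1 0).add (h 0 1)).div_const 2).ofReal_comp
  exact h1.add (h2.mul_const I)

lemma continuous_act1 (g : SL2) : Continuous (fun z : Circle => (act g z : ℂ)) := by
  have h1 : Continuous (fun z : Circle => num g z / den g z) := by
    apply Continuous.div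
    · exact (continuous_const.mul continuous_coe_circle).add continuous_const
    · exact (continuous_const.mul continuous_coe_circle).add continuous_const
    · intro z
      exact den_ne g z
  exact h1

/-- the transported coordinate function, for a one parameter family in `SL₂` and one of the two
projections of the torus -/
noncomputable def Uf (c : ℝ → SL2) (pr : C(T2, Circle)) (t : ℝ) : E where
  toFun x := (act (c t)⁻¹ (pr x) : ℂ)
  continuous_toFun := (continuous_act1 (c t)⁻¹).comp pr.continuous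

lemma Uf_deriv (c : ℝ → SL2) (hc0 : c 0 = 1) (hcn : ∀ t, (c t)⁻¹ = c (-t)) (X : M2)
    (hX : X.trace = 0) (hc : ∀ i j, HasDerivAt (fun t => mat (c t) i j) (X i j) 0)
    (pr : C(T2, Circle)) :
    ∃ U' : E, HasDerivAt (Uf c pr) U' 0 ∧
      ∀ x, U' x = -2 * al X * pr x - be X + conj (be X) * (pr x : ℂ) ^ 2 := by
  let Q : E := ⟨fun x => (pr x : ℂ), continuous_coe_circle.comp pr.continuous⟩
  have hneg : HasDerivAt (fun t : ℝ => -t) (-1) 0 := (hasDerivAt_id (0 : ℝ)).neg
  have ha : HasDerivAt (fun t => al (mat (c (-t)))) (-al X) 0 := by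
    have h0 := hasDeriv_al hc
    have h1 : HasDerivAt (fun t => al (mat (c t))) (al X) (-0 : ℝ) := by
      rw [neg_zero]; exact h0
    have h2 := HasDerivAt.scomp (0 : ℝ) h1 hneg
    rw [neg_one_smul] at h2
    exact h2
  have hb : HasDerivAt (fun t => be (mat (c (-t)))) (-be X) 0 := by
    have h0 := hasDeriv_be hc
    have h1 : HasDerivAt (fun t => be (mat (c t))) (be X) (-0 : ℝ) := by
      rw [neg_zero]; exact h0
    have h2 := HasDerivAt.scomp (0 : ℝ) h1 hneg
    rw [neg_one_smul] at h2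
    exact h2
  have hden : ∀ t x, (conj (be (mat (c (-t)))) • Q + conj (al (mat (c (-t)))) • (1 : E)) x =
      den (c t)⁻¹ (pr x) := by
    intro t x
    rw [hcn]
    simp [den, Q]
  have h := deriv_frac Q (Uf c pr) _ _ _ _ ha hb (by rw [neg_zero, hc0, map_one, al_one])
    (by rw [neg_zero, hc0, map_one, be_one]) (by
      intro t
      ext x
      rw [ContinuousMap.mul_apply, hden]
      show num (c t)⁻¹ (pr x) / den (c t)⁻¹ (pr x) * den (c t)⁻¹ (pr x) = _
      rw [div_mul_cancel₀ _ (den_ne _ _), hcn]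
      simp [num, Q]) (by
      intro t
      rw [ContinuousMap.isUnit_iff_forall_ne_zero]
      intro x
      rw [hden]
      exact den_ne _ _)
  refine ⟨_, h, ?_⟩
  intro x
  simp only [ContinuousMap.sub_apply, ContinuousMap.add_apply, ContinuousMap.smul_apply,
    ContinuousMap.mul_apply, ContinuousMap.one_apply, smul_eq_mul, mul_one, map_neg, conj_al hX,
    neg_neg]
  show -al X * (pr x : ℂ) + -be X - (pr x : ℂ) * (-conj (be X) * (pr x : ℂ) + al X) = _
  ring

/-- first projection -/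
def pr1 : C(T2, Circle) := ⟨fun x => x.1, continuous_fst⟩
/-- second projection -/
def pr2 : C(T2, Circle) := ⟨fun x => x.2, continuous_snd⟩

theorem rho_deriv (γ : Multiplicative ℝ →* G) (X : Lg)
    (h1 : ∀ i j, HasDerivAt (fun t : ℝ => mat (γ (Multiplicative.ofAdd t)).1 i j) (X.1.1 i j) 0)
    (h2 : ∀ i j, HasDerivAt (fun t : ℝ => mat (γ (Multiplicative.ofAdd t)).2 i j) (X.1.2 i j) 0)
    (v : V) : HasDerivAt (fun t : ℝ => rho (γ (Multiplicative.ofAdd t)) (io v)) (io (Pi' X v)) 0 := by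
  induction v using ind_e with
  | h0 =>
    simp only [map_zero]
    exact hasDerivAt_const _ _
  | hadd v w hv hw =>
    simp only [map_add]
    exact hv.add hw
  | hsmul a v hv =>
    simp only [map_smul]
    exact hv.const_smul a
  | he j l =>
    obtain ⟨U1, hU1, hU1x⟩ := Uf_deriv (fun t => (gam γ t).1) (by rw [gam_zero]; rfl)
      (fun t => by
        show ((gam γ t)⁻¹).1 = _
        rw [gam_neg]) X.1.1 X.2.1 h1 pr1
    obtain ⟨U2, hU2, hU2x⟩ := Uf_deriv (fun t => (gam γ t).2) (by rw [gam_zero]; rfl)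
      (fun t => by
        show ((gam γ t)⁻¹).2 = _
        rw [gam_neg]) X.1.2 X.2.2 h2 pr2
    have hn1 : ∀ t x, ‖Uf (fun t => (gam γ t).1) pr1 t x‖ = 1 := fun t x => Circle.norm_coe _
    have hn2 : ∀ t x, ‖Uf (fun t => (gam γ t).2) pr2 t x‖ = 1 := fun t x => Circle.norm_coe _
    have hz1 : ∀ x : T2, Uf (fun t => (gam γ t).1) pr1 0 x = (x.1 : ℂ) := by
      intro x
      show (act ((gam γ 0).1)⁻¹ x.1 : ℂ) = _
      rw [gam_zero]
      show (act (1 : SL2)⁻¹ x.1 : ℂ) = _
      rw [inv_one, act_one]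
    have hz2 : ∀ x : T2, Uf (fun t => (gam γ t).2) pr2 0 x = (x.2 : ℂ) := by
      intro x
      show (act ((gam γ 0).2)⁻¹ x.2 : ℂ) = _
      rw [gam_zero]
      show (act (1 : SL2)⁻¹ x.2 : ℂ) = _
      rw [inv_one, act_one]
    have hd1 := deriv_zpow _ _ hU1 hn1 j (fun t => rho (gam γ t) (ch j 0)) (by
      intro t x
      rw [rho_apply, ch_apply, zpow_zero, mul_one]
      rfl) ((j : ℂ) • (ch (j - 1) 0 * U1)) (by
      intro x
      rw [ContinuousMap.smul_apply, ContinuousMap.mul_apply, ch_apply, hz1, zpow_zero, mul_one,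
        smul_eq_mul]
      ring)
    have hd2 := deriv_zpow _ _ hU2 hn2 l (fun t => rho (gam γ t) (ch 0 l)) (by
      intro t x
      rw [rho_apply, ch_apply, zpow_zero, one_mul]
      rfl) ((l : ℂ) • (ch 0 (l - 1) * U2)) (by
      intro x
      rw [ContinuousMap.smul_apply, ContinuousMap.mul_apply, ch_apply, hz2, zpow_zero, one_mul,
        smul_eq_mul]
      ring)
    have hd := hd1.mul hd2
    have heq : (fun t : ℝ => rho (γ (Multiplicative.ofAdd t)) (io (e j l))) =
        fun t => rho (gam γ t) (ch j 0) * rho (gam γ t) (ch 0 l) := by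
      funext t
      rw [io_e]
      ext x
      rw [ContinuousMap.mul_apply, rho_apply, rho_apply, rho_apply, ch_apply, ch_apply, ch_apply,
        zpow_zero, zpow_zero, mul_one, one_mul]
      rfl
    rw [heq]
    refine hd.congr_deriv (Eq.symm ?_)
    ext x
    have hx1 : (x.1 : ℂ) ≠ 0 := Circle.coe_ne_zero _
    have hx2 : (x.2 : ℂ) ≠ 0 := Circle.coe_ne_zero _
    have hr : ∀ f : E, rho (gam γ 0) f = f := by
      intro f
      rw [gam_zero, map_one]
      rfl
    rw [ContinuousMap.add_apply, ContinuousMap.mul_apply, ContinuousMap.mul_apply, hr, hr,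
      ContinuousMap.smul_apply, ContinuousMap.smul_apply, ContinuousMap.mul_apply,
      ContinuousMap.mul_apply, hU1x, hU2x]
    have hPi : Pi' X (e j l) = P1 X.1.1 (e j l) + P2 X.1.2 (e j l) := rfl
    rw [hPi, P1_e, P2_e]
    simp only [map_add, map_sub, map_smul, io_e, ContinuousMap.add_apply, ContinuousMap.sub_apply,
      ContinuousMap.smul_apply, ch_apply, smul_eq_mul]
    show _ = (j : ℂ) * ((x.1 : ℂ) ^ (j - 1) * (x.2 : ℂ) ^ (0 : ℤ) * (-2 * al X.1.1 * x.1 - be X.1.1 +
      conj (be X.1.1) * (x.1 : ℂ) ^ 2)) * ((x.1 : ℂ) ^ (0 : ℤ) * (x.2 : ℂ) ^ l) +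
      (x.1 : ℂ) ^ j * (x.2 : ℂ) ^ (0 : ℤ) * ((l : ℂ) * ((x.1 : ℂ) ^ (0 : ℤ) * (x.2 : ℂ) ^ (l - 1) *
      (-2 * al X.1.2 * x.2 - be X.1.2 + conj (be X.1.2) * (x.2 : ℂ) ^ 2)))
    have a1 : (x.1 : ℂ) ^ j = (x.1 : ℂ) ^ (j - 1) * x.1 := by
      rw [← zpow_add_one₀ hx1]
      congr 1
      ring
    have a2 : (x.1 : ℂ) ^ (j + 1) = (x.1 : ℂ) ^ (j - 1) * (x.1 : ℂ) ^ 2 := by
      rw [← zpow_natCast, ← zpow_add₀ hx1]
      congr 1
      push_cast
      ring
    have b1 : (x.2 : ℂ) ^ l = (x.2 : ℂ) ^ (l - 1) * x.2 := by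
      rw [← zpow_add_one₀ hx2]
      congr 1
      ring
    have b2 : (x.2 : ℂ) ^ (l + 1) = (x.2 : ℂ) ^ (l - 1) * (x.2 : ℂ) ^ 2 := by
      rw [← zpow_natCast, ← zpow_add₀ hx2]
      congr 1
      push_cast
      ring
    rw [a2, b2, a1, b1, zpow_zero, zpow_zero]
    ring

end Pool.Agent.NH57.Sob
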