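import Mathlib
import Pool.Agent.NH57.Sob.Der

/-!
The consequence of the `G`-continuity of the Sobolev norm of order two.
-/

set_option autoImplicit false

namespace Pool.Agent.NH57.Sob

open Matrix Complex ComplexConjugate

/-- the operator `1 + Δ_K` -/
noncomputable def Dop (c : ℝ) : V →ₗ[ℂ] V :=
  lin fun j l => (1 + c * ((2 * j : ℂ) ^ 2 + (2 * l : ℂ) ^ 2)) • e j l

lemma Dop_e (c : ℝ) (j l : ℤ) :
    Dop c (e j l) = (1 + c * ((2 * j : ℂ) ^ 2 + (2 * l : ℂ) ^ 2)) • e j l := lin_e _ _ _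

/-- the second derivative at the unit point -/
noncomputable def Pj : V →ₗ[ℂ] ℂ := lin fun j _ => (j : ℂ) ^ 2

lemma Pj_e (j l : ℤ) : Pj (e j l) = (j : ℂ) ^ 2 := lin_e _ _ _

/-- the hyperbolic element acting -/
noncomputable def Nn : Module.End ℂ V := P1 Hm

lemma Nn_e (j l : ℤ) : Nn (e j l) = (j : ℂ) • e (j + 1) l + (-(j : ℂ)) • e (j - 1) l := by
  rw [Nn, P1_e, al_Hm, be_Hm, map_one]
  module

/-- evaluation of `Dop v` at the unit point -/
noncomputable def Jj (c : ℝ) : V →ₗ[ℂ] ℂ :=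
  lin fun j l => 1 + c * ((2 * j : ℂ) ^ 2 + (2 * l : ℂ) ^ 2)

lemma Jj_eq (c : ℝ) (v : V) : io (Dop c v) ((1, 1) : T2) = Jj c v := by
  induction v using ind_e with
  | h0 => simp
  | hadd v w hv hw => rw [map_add, map_add, ContinuousMap.add_apply, hv, hw, map_add]
  | hsmul a v hv => rw [map_smul, map_smul, ContinuousMap.smul_apply, hv, map_smul]
  | he j l =>
    rw [Dop_e, map_smul, io_e, ContinuousMap.smul_apply, ch_apply, Jj, lin_e]
    simp

lemma Pj_Nn (v : V) : Pj (Nn v) = 4 * Pj v := by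
  induction v using ind_e with
  | h0 => simp
  | hadd v w hv hw => rw [map_add, map_add, hv, hw, map_add]; ring
  | hsmul a v hv => rw [map_smul, map_smul, hv, map_smul, smul_eq_mul, smul_eq_mul]; ring
  | he j l =>
    rw [Nn_e, map_add, map_smul, map_smul, Pj_e, Pj_e, Pj_e, smul_eq_mul, smul_eq_mul]
    push_cast
    ring

lemma Jj_Nn (c : ℝ) (v : V) : Jj c (Nn v) = 16 * c * Pj v := by
  induction v using ind_e with
  | h0 => simp
  | hadd v w hv hw => rw [map_add, map_add, hv, hw, map_add]; ring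
  | hsmul a v hv => rw [map_smul, map_smul, hv, map_smul, smul_eq_mul, smul_eq_mul]; ring
  | he j l =>
    rw [Nn_e, map_add, map_smul, map_smul, Jj, lin_e, lin_e, Pj_e, smul_eq_mul, smul_eq_mul]
    push_cast
    ring

lemma Jj_Nn_pow (c : ℝ) (v : V) (k : ℕ) : Jj c ((Nn ^ (k + 1)) v) = 16 * c * 4 ^ k * Pj v := by
  have h1 : ∀ k : ℕ, Pj ((Nn ^ k) v) = 4 ^ k * Pj v := by
    intro k
    induction k with
    | zero => simp
    | succ k ih => rw [pow_succ', Module.End.mul_apply, Pj_Nn, ih]; ring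
  rw [pow_succ', Module.End.mul_apply, Jj_Nn, h1]
  ring

/-- bounds for the coefficients and the support -/
inductive Bd (l : ℤ) (m : ℕ) : ℝ → V → Prop
  | zero {C : ℝ} (h : 0 ≤ C) : Bd l m C 0
  | add {C C' : ℝ} {v : V} (a : ℂ) (j : ℤ) (hj : |j| ≤ m) (hC : C + ‖a‖ ≤ C') :
      Bd l m C v → Bd l m C' (v + a • e j l)

lemma Bd.nonneg {l : ℤ} {m : ℕ} {C : ℝ} {v : V} (h : Bd l m C v) : 0 ≤ C := by
  induction h with
  | zero h => exact h
  | add a j hj hC _ ih => exact le_trans (by positivity) hC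

lemma Bd.Nn {l : ℤ} {m : ℕ} {C : ℝ} {v : V} (h : Bd l m C v) {C1 : ℝ} (hC1 : 2 * m * C ≤ C1) :
    Bd l (m + 1) C1 (Nn v) := by
  induction h generalizing C1 with
  | zero h =>
    rw [map_zero]
    exact Bd.zero (le_trans (by positivity) hC1)
  | @add C C' v a j hj hC hv ih =>
    have h1 : Sob.Nn (v + a • e j l) =
        (Sob.Nn v + (a * j) • e (j + 1) l) + (-(a * j)) • e (j - 1) l := by
      rw [map_add, map_smul, Nn_e]
      module
    rw [h1]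
    have hj' : ‖(j : ℂ)‖ ≤ m := by
      rw [Complex.norm_intCast]
      have : ((|j| : ℤ) : ℝ) ≤ ((m : ℤ) : ℝ) := by exact_mod_cast hj
      simpa using this
    have haj : ‖a * j‖ ≤ ‖a‖ * m := by
      rw [norm_mul]
      exact mul_le_mul_of_nonneg_left hj' (norm_nonneg _)
    have h2 : |j + 1| ≤ ((m + 1 : ℕ) : ℤ) := by
      push_cast
      rw [abs_le] at hj ⊢
      omega
    have h3 : |j - 1| ≤ ((m + 1 : ℕ) : ℤ) := by
      push_cast
      rw [abs_le] at hj ⊢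
      omega
    refine Bd.add (C := 2 * m * C + ‖a‖ * m) _ _ h3 ?_ (Bd.add (C := 2 * m * C) _ _ h2 ?_ (ih le_rfl))
    · rw [norm_neg]
      have : 2 * (m : ℝ) * (C + ‖a‖) ≤ 2 * m * C' := by gcongr
      nlinarith
    · linarith

lemma Bd.norm {l : ℤ} {m : ℕ} {C : ℝ} {v : V} (h : Bd l m C v) {c : ℝ} (hc : 0 < c) :
    ‖io (Dop c v)‖ ≤ C * (1 + 4 * c * ((m : ℝ) ^ 2 + (l : ℝ) ^ 2)) := by
  induction h with
  | zero h =>
    simp only [map_zero, norm_zero]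
    positivity
  | @add C C' v a j hj hC hv ih =>
    rw [map_add, map_smul, Dop_e, map_add, map_smul, map_smul, io_e]
    have hj1 : ((j : ℝ)) ^ 2 ≤ (m : ℝ) ^ 2 := by
      have h1 : (|j| : ℤ) ^ 2 ≤ (m : ℤ) ^ 2 := by
        gcongr
      rw [sq_abs] at h1
      exact_mod_cast h1
    have h2 : ‖(1 + c * ((2 * j : ℂ) ^ 2 + (2 * l : ℂ) ^ 2) : ℂ)‖ ≤
        1 + 4 * c * ((m : ℝ) ^ 2 + (l : ℝ) ^ 2) := by
      have h3 : (1 + c * ((2 * j : ℂ) ^ 2 + (2 * l : ℂ) ^ 2) : ℂ) =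
          ((1 + 4 * c * ((j : ℝ) ^ 2 + (l : ℝ) ^ 2) : ℝ) : ℂ) := by
        push_cast
        ring
      rw [h3, Complex.norm_real, Real.norm_of_nonneg (by positivity)]
      have : 4 * c * ((j : ℝ) ^ 2 + (l : ℝ) ^ 2) ≤ 4 * c * ((m : ℝ) ^ 2 + (l : ℝ) ^ 2) := by gcongr
      linarith
    calc ‖io (Dop c v) + a • (1 + c * ((2 * j : ℂ) ^ 2 + (2 * l : ℂ) ^ 2) : ℂ) • ch j l‖
        ≤ ‖io (Dop c v)‖ + ‖a • (1 + c * ((2 * j : ℂ) ^ 2 + (2 * l : ℂ) ^ 2) : ℂ) • ch j l‖ :=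
          norm_add_le _ _
      _ ≤ C * (1 + 4 * c * ((m : ℝ) ^ 2 + (l : ℝ) ^ 2)) +
          ‖a‖ * ((1 + 4 * c * ((m : ℝ) ^ 2 + (l : ℝ) ^ 2)) * 1) := by
          rw [norm_smul, norm_smul]
          gcongr
          exact norm_ch j l
      _ = (C + ‖a‖) * (1 + 4 * c * ((m : ℝ) ^ 2 + (l : ℝ) ^ 2)) := by ring
      _ ≤ C' * (1 + 4 * c * ((m : ℝ) ^ 2 + (l : ℝ) ^ 2)) := by gcongr

lemma Bd_pow (j l : ℤ) (N : ℕ) :
    Bd l (j.natAbs + N) (2 ^ N * ((j.natAbs + 1).ascFactorial N : ℝ)) ((Nn ^ N) (e j l)) := by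
  induction N with
  | zero =>
    have h : Bd l j.natAbs 1 (0 + (1 : ℂ) • e j l) :=
      Bd.add (C := 0) 1 j (by rw [Int.abs_eq_natAbs]) (by simp) (Bd.zero le_rfl)
    simpa using h
  | succ N ih =>
    have h0 : (Nn ^ (N + 1)) (e j l) = Nn ((Nn ^ N) (e j l)) := by
      rw [pow_succ', Module.End.mul_apply]
    rw [h0]
    refine Bd.Nn ih ?_
    have h1 : ((j.natAbs + 1).ascFactorial (N + 1) : ℝ) =
        ((j.natAbs : ℝ) + 1 + N) * ((j.natAbs + 1).ascFactorial N : ℝ) := by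
      rw [Nat.ascFactorial_succ]
      push_cast
      ring
    rw [h1]
    have h2 : (0 : ℝ) ≤ ((j.natAbs + 1).ascFactorial N : ℝ) := by positivity
    have h3 : (0 : ℝ) ≤ 2 ^ N * ((j.natAbs + 1).ascFactorial N : ℝ) := by positivity
    push_cast
    rw [pow_succ]
    nlinarith

lemma sq_le_two_pow (N : ℕ) : ((N : ℝ) + 1) ^ 2 ≤ 4 * 2 ^ N := by
  induction N with
  | zero => norm_num
  | succ N ih =>
    rcases Nat.lt_or_ge N 2 with h | h
    · interval_cases N <;> norm_num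
    · have h1 : (2 : ℝ) ≤ N := by exact_mod_cast h
      push_cast
      rw [pow_succ' (2 : ℝ) N]
      nlinarith

lemma growth {c : ℝ} (hc : 0 < c) (v : V) :
    ∃ C : ℝ, 0 ≤ C ∧ ∀ N : ℕ, ‖io (Dop c ((Nn ^ N) v))‖ ≤ C * N.factorial * 8 ^ N := by
  induction v using ind_e with
  | h0 =>
    refine ⟨0, le_rfl, ?_⟩
    intro N
    simp
  | hadd v w hv hw =>
    obtain ⟨C, hC, h⟩ := hv
    obtain ⟨C', hC', h'⟩ := hw
    refine ⟨C + C', by positivity, ?_⟩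
    intro N
    rw [map_add, map_add, map_add]
    refine (norm_add_le _ _).trans ((add_le_add (h N) (h' N)).trans (le_of_eq ?_))
    ring
  | hsmul a v hv =>
    obtain ⟨C, hC, h⟩ := hv
    refine ⟨‖a‖ * C, by positivity, ?_⟩
    intro N
    rw [map_smul, map_smul, map_smul, norm_smul]
    refine (mul_le_mul_of_nonneg_left (h N) (norm_nonneg a)).trans (le_of_eq ?_)
    ring
  | he j l =>
    refine ⟨2 ^ j.natAbs * (1 + 4 * c * (4 * ((j.natAbs : ℝ) + 1) ^ 2 + (l : ℝ) ^ 2)), by positivity,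
      ?_⟩
    intro N
    refine (Bd.norm (Bd_pow j l N) hc).trans ?_
    have h1 : ((j.natAbs + 1).ascFactorial N : ℝ) ≤ N.factorial * 2 ^ (j.natAbs + N) := by
      rw [Nat.ascFactorial_eq_factorial_mul_choose]
      push_cast
      gcongr
      exact_mod_cast Nat.choose_le_two_pow (j.natAbs + N) N
    have h2 : (1 + 4 * c * (((j.natAbs + N : ℕ) : ℝ) ^ 2 + (l : ℝ) ^ 2)) ≤
        (1 + 4 * c * (4 * ((j.natAbs : ℝ) + 1) ^ 2 + (l : ℝ) ^ 2)) * 2 ^ N := by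
      have h3 := sq_le_two_pow N
      have h4 : (((j.natAbs + N : ℕ) : ℝ)) ^ 2 ≤ 4 * ((j.natAbs : ℝ) + 1) ^ 2 * 2 ^ N := by
        have h5 : (((j.natAbs + N : ℕ) : ℝ)) ≤ ((j.natAbs : ℝ) + 1) * ((N : ℝ) + 1) := by
          push_cast
          nlinarith [Nat.cast_nonneg (α := ℝ) j.natAbs, Nat.cast_nonneg (α := ℝ) N]
        calc (((j.natAbs + N : ℕ) : ℝ)) ^ 2 ≤ (((j.natAbs : ℝ) + 1) * ((N : ℝ) + 1)) ^ 2 := by gcongr
          _ = ((j.natAbs : ℝ) + 1) ^ 2 * ((N : ℝ) + 1) ^ 2 := by ring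
          _ ≤ ((j.natAbs : ℝ) + 1) ^ 2 * (4 * 2 ^ N) := by gcongr
          _ = _ := by ring
      have h6 : (1 : ℝ) ≤ 2 ^ N := one_le_pow₀ (by norm_num)
      have h7 : (l : ℝ) ^ 2 ≤ (l : ℝ) ^ 2 * 2 ^ N := le_mul_of_one_le_right (by positivity) h6
      calc (1 + 4 * c * (((j.natAbs + N : ℕ) : ℝ) ^ 2 + (l : ℝ) ^ 2))
          ≤ 1 * 2 ^ N + 4 * c * (4 * ((j.natAbs : ℝ) + 1) ^ 2 * 2 ^ N + (l : ℝ) ^ 2 * 2 ^ N) := by
            gcongr
            linarith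
        _ = _ := by ring
    calc (2 ^ N * ((j.natAbs + 1).ascFactorial N : ℝ)) *
          (1 + 4 * c * (((j.natAbs + N : ℕ) : ℝ) ^ 2 + (l : ℝ) ^ 2))
        ≤ (2 ^ N * (N.factorial * 2 ^ (j.natAbs + N))) *
          ((1 + 4 * c * (4 * ((j.natAbs : ℝ) + 1) ^ 2 + (l : ℝ) ^ 2)) * 2 ^ N) := by
          gcongr
      _ = _ := by
          have h8 : (8 : ℝ) ^ N = 2 ^ N * 2 ^ N * 2 ^ N := by
            rw [← mul_pow, ← mul_pow]; norm_num
          rw [h8, pow_add]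
          ring

end Pool.Agent.NH57.Sob
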