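import Mathlib
import Pool.Agent.NH57.Sob.Neg

/-!
The consequence of the `G`-continuity of the Sobolev norm of order two, continued.
-/

set_option autoImplicit false

namespace Pool.Agent.NH57.Sob

open Matrix Complex ComplexConjugate

/-- hyperbolic elements -/
noncomputable def hy (t : ℝ) : SL2 :=
  ⟨!![Real.exp t, 0; 0, Real.exp (-t)], by
    rw [Matrix.det_fin_two_of, ← Real.exp_add]
    simp⟩

lemma hy_mul (s t : ℝ) : hy (s + t) = hy s * hy t := by
  apply Subtype.ext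
  show !![Real.exp (s + t), 0; 0, Real.exp (-(s + t))] =
    !![Real.exp s, 0; 0, Real.exp (-s)] * !![Real.exp t, 0; 0, Real.exp (-t)]
  rw [Matrix.mul_fin_two]
  simp [← Real.exp_add]
  ring_nf

lemma hy_zero : hy 0 = 1 := by
  apply Subtype.ext
  show !![Real.exp 0, 0; 0, Real.exp (-0)] = (1 : M2)
  rw [neg_zero, Real.exp_zero, Matrix.one_fin_two]

/-- the one parameter group -/
noncomputable def hyp : Multiplicative ℝ →* G where
  toFun t := (hy t.toAdd, 1)
  map_one' := by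
    rw [toAdd_one, hy_zero]
    rfl
  map_mul' s t := by
    rw [toAdd_mul, hy_mul]
    show _ = (hy s.toAdd * hy t.toAdd, (1 : SL2) * 1)
    rw [mul_one]

lemma hy_cont : Continuous hy := by
  refine Continuous.subtype_mk ?_ _
  apply continuous_matrix
  intro i j
  fin_cases i <;> fin_cases j <;> simp <;> fun_prop

lemma hyp_cont : Continuous (fun t : ℝ => hyp (Multiplicative.ofAdd t)) := by
  show Continuous (fun t : ℝ => ((hy t, 1) : G))
  exact hy_cont.prodMk continuous_const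

lemma hyp_der1 (i j : Fin 2) : HasDerivAt
    (fun t : ℝ => mat (hyp (Multiplicative.ofAdd t)).1 i j) ((mk1 Hm tr_Hm).1.1 i j) 0 := by
  show HasDerivAt (fun t : ℝ => (!![Real.exp t, 0; 0, Real.exp (-t)] : M2) i j)
    ((!![1, 0; 0, -1] : M2) i j) 0
  have h1 : HasDerivAt (fun t : ℝ => Real.exp t) 1 0 := by
    simpa using Real.hasDerivAt_exp 0
  have h2 : HasDerivAt (fun t : ℝ => Real.exp (-t)) (-1) 0 := by
    have := (hasDerivAt_neg (0 : ℝ)).exp
    simpa using this
  fin_cases i <;> fin_cases j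
  · simpa using h1
  · simpa using hasDerivAt_const (0 : ℝ) (0 : ℝ)
  · simpa using hasDerivAt_const (0 : ℝ) (0 : ℝ)
  · simpa using h2

lemma hyp_der2 (i j : Fin 2) : HasDerivAt
    (fun t : ℝ => mat (hyp (Multiplicative.ofAdd t)).2 i j) ((mk1 Hm tr_Hm).1.2 i j) 0 :=
  hasDerivAt_const _ _

section

variable {E' : Type} [NormedAddCommGroup E'] [NormedSpace ℂ E']

/-- An abstract form of the Taylor expansion of an orbit. -/
theorem taylor (f : ℝ → (E' →L[ℂ] E')) (ι' : V →ₗ[ℂ] E') (N : Module.End ℂ V)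
    (hf0 : f 0 = 1)
    (hder : ∀ s v, HasDerivAt (fun t => f t (ι' v)) (f s (ι' (N v))) s)
    (t : ℝ) (ht : 0 ≤ t) (B : ℝ) (hB : ∀ s ∈ Set.Icc 0 t, ‖f s‖ ≤ B) (v : V) (n : ℕ) :
    ‖f t (ι' v) - ι' (∑ k ∈ Finset.range (n + 1), ((t ^ k / k.factorial : ℝ) : ℂ) • (N ^ k) v)‖ ≤
      (t ^ n / n.factorial) * (B * ‖ι' ((N ^ (n + 1)) v)‖) * t := by
  have key : ∀ n : ℕ, ∀ s : ℝ, HasDerivAt (fun s : ℝ => ∑ k ∈ Finset.range (n + 1),
      ((t - s) ^ k / k.factorial : ℝ) • f s (ι' ((N ^ k) v)))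
      (((t - s) ^ n / n.factorial : ℝ) • f s (ι' ((N ^ (n + 1)) v))) s := by
    intro n
    induction n with
    | zero =>
      intro s
      have := hder s v
      simpa using this
    | succ n ih =>
      intro s
      have h1 := ih s
      have h2 : HasDerivAt (fun s : ℝ => ((t - s) ^ (n + 1) / (n + 1).factorial : ℝ))
          (-((t - s) ^ n / n.factorial)) s := by
        have h3 := (((hasDerivAt_id s).const_sub t).pow (n + 1)).div_const ((n + 1).factorial : ℝ)
        refine h3.congr_deriv ?_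
        have h4 : ((n + 1).factorial : ℝ) = (n + 1) * n.factorial := by
          rw [Nat.factorial_succ]; push_cast; ring
        have h5 : (n.factorial : ℝ) ≠ 0 := by positivity
        rw [h4]
        simp only [id_eq, Nat.add_sub_cancel]
        push_cast
        field_simp
      have h3 := h2.smul (hder s ((N ^ (n + 1)) v))
      have h4 := h1.add h3
      have h5 : (fun s : ℝ => ∑ k ∈ Finset.range (n + 1 + 1),
          ((t - s) ^ k / k.factorial : ℝ) • f s (ι' ((N ^ k) v))) = fun s : ℝ =>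
          (∑ k ∈ Finset.range (n + 1), ((t - s) ^ k / k.factorial : ℝ) • f s (ι' ((N ^ k) v))) +
          ((t - s) ^ (n + 1) / (n + 1).factorial : ℝ) • f s (ι' ((N ^ (n + 1)) v)) := by
        funext s
        rw [Finset.sum_range_succ]
      rw [h5]
      refine h4.congr_deriv ?_
      have h6 : (N ^ (n + 1 + 1)) v = N ((N ^ (n + 1)) v) := by
        rw [pow_succ' N (n + 1), Module.End.mul_apply]
      rw [h6, neg_smul]
      abel
  have hmv := Convex.norm_image_sub_le_of_norm_hasDerivWithin_le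
    (f := fun s : ℝ => ∑ k ∈ Finset.range (n + 1),
      ((t - s) ^ k / k.factorial : ℝ) • f s (ι' ((N ^ k) v)))
    (f' := fun s => ((t - s) ^ n / n.factorial : ℝ) • f s (ι' ((N ^ (n + 1)) v)))
    (s := Set.Icc 0 t) (x := 0) (y := t) (C := (t ^ n / n.factorial) * (B * ‖ι' ((N ^ (n + 1)) v)‖))
    (fun s _ => (key n s).hasDerivWithinAt) (by
      intro s hs
      rw [norm_smul]
      have h1 : ‖((t - s) ^ n / n.factorial : ℝ)‖ ≤ t ^ n / n.factorial := by
        have h2 : 0 ≤ t - s := by linarith [hs.2]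
        rw [Real.norm_of_nonneg (by positivity)]
        have h3 : t - s ≤ t := by linarith [hs.1]
        gcongr
      have h4 : ‖f s (ι' ((N ^ (n + 1)) v))‖ ≤ B * ‖ι' ((N ^ (n + 1)) v)‖ :=
        (f s).le_of_opNorm_le (hB s hs) _
      exact mul_le_mul h1 h4 (norm_nonneg _) (by positivity)) (convex_Icc 0 t)
    (Set.left_mem_Icc.mpr ht) (Set.right_mem_Icc.mpr ht)
  have e1 : (∑ k ∈ Finset.range (n + 1), ((t - t) ^ k / k.factorial : ℝ) • f t (ι' ((N ^ k) v))) =
      f t (ι' v) := by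
    rw [Finset.sum_range_succ']
    simp
  have e2 : (∑ k ∈ Finset.range (n + 1), ((t - 0) ^ k / k.factorial : ℝ) • f 0 (ι' ((N ^ k) v))) =
      ι' (∑ k ∈ Finset.range (n + 1), ((t ^ k / k.factorial : ℝ) : ℂ) • (N ^ k) v) := by
    rw [map_sum]
    refine Finset.sum_congr rfl (fun k _ => ?_)
    rw [sub_zero, hf0, map_smul]
    rfl
  simp only [e1, e2] at hmv
  rwa [sub_zero, Real.norm_of_nonneg ht] at hmv

end

theorem bound_of_GContinuous {c : ℝ} (hc : 0 < c)
    (h : GContinuous MM (fun v => ‖io (Dop c v)‖)) :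
    ∃ C : ℝ, 0 ≤ C ∧ ∀ v, ‖Pj v‖ ≤ C * ‖io (Dop c v)‖ := by
  obtain ⟨E', _, _, _, ι', ρ', hnorm, hdense, hcont, hK, hder⟩ := h
  let f : ℝ → (E' →L[ℂ] E') := fun s => ρ' (hyp (Multiplicative.ofAdd s))
  have hf0 : f 0 = 1 := by
    show ρ' (hyp (Multiplicative.ofAdd 0)) = 1
    rw [ofAdd_zero, map_one, map_one]
  have hfadd : ∀ s t, f (s + t) = f s * f t := by
    intro s t
    show ρ' (hyp (Multiplicative.ofAdd (s + t))) = _
    rw [ofAdd_add, map_mul, map_mul]
  have hfder0 : ∀ v, HasDerivAt (fun t => f t (ι' v)) (ι' (Nn v)) 0 := by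
    intro v
    have h1 := hder hyp (mk1 Hm tr_Hm) hyp_der1 hyp_der2 v
    have h2 : MM.π (mk1 Hm tr_Hm) = Nn := Pi_mk1 Hm tr_Hm
    rw [h2] at h1
    exact h1
  have hfder : ∀ s v, HasDerivAt (fun t => f t (ι' v)) (f s (ι' (Nn v))) s := by
    intro s v
    have h1 : HasDerivAt (fun t => f (t - s) (ι' v)) (ι' (Nn v)) s := by
      have h2 : HasDerivAt (fun t => f t (ι' v)) (ι' (Nn v)) (s - s) := by
        rw [sub_self]
        exact hfder0 v
      exact HasDerivAt.comp_sub_const s s h2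
    have h3 := ((f s).restrictScalars ℝ).hasFDerivAt.comp_hasDerivAt s h1
    have h4 : (fun t => f t (ι' v)) = (fun x => f s x) ∘ fun t => f (t - s) (ι' v) := by
      funext t
      show f t (ι' v) = f s (f (t - s) (ι' v))
      have : f t = f s * f (t - s) := by rw [← hfadd, add_sub_cancel]
      rw [this]
      rfl
    rw [h4]
    exact h3
  -- the uniform bound
  have hbd : ∃ B, ∀ s : Set.Icc (0 : ℝ) (1 / 16), ‖f s.1‖ ≤ B := by
    apply banach_steinhaus
    intro x
    have h1 : Continuous (fun s : ℝ => f s x) := hcont.comp (hyp_cont.prodMk continuous_const)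
    have h2 := isCompact_Icc.exists_bound_of_continuousOn (f := fun s : ℝ => f s x)
      (h1.continuousOn (s := Set.Icc (0 : ℝ) (1 / 16)))
    obtain ⟨C, hC⟩ := h2
    exact ⟨C, fun s => hC s.1 s.2⟩
  obtain ⟨B, hB⟩ := hbd
  have hB0 : 0 ≤ B := (norm_nonneg _).trans (hB ⟨0, by norm_num, by norm_num⟩)
  refine ⟨(B + 1) / c, by positivity, ?_⟩
  intro v
  obtain ⟨C, hC0, hC⟩ := growth hc v
  -- the partial sums
  have hstep : ∀ n : ℕ, 1 ≤ n → c * ‖Pj v‖ ≤ (B + 1) * ‖io (Dop c v)‖ +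
      B * C * (((n : ℝ) + 1) * (1 / 2) ^ n) := by
    intro n hn
    have ht := taylor f ι' Nn hf0 hfder (1 / 16) (by norm_num) B (fun s hs => hB ⟨s, hs⟩) v n
    set S := ∑ k ∈ Finset.range (n + 1), (((1 / 16 : ℝ) ^ k / k.factorial : ℝ) : ℂ) • (Nn ^ k) v
      with hS
    have h1 : ‖ι' ((Nn ^ (n + 1)) v)‖ ≤ C * (n + 1).factorial * 8 ^ (n + 1) := by
      rw [hnorm]
      exact hC (n + 1)
    have h2 : ((1 / 16 : ℝ) ^ n / n.factorial) * (B * ‖ι' ((Nn ^ (n + 1)) v)‖) * (1 / 16) ≤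
        B * C * (((n : ℝ) + 1) * (1 / 2) ^ n) := by
      have hf : (0 : ℝ) < n.factorial := by positivity
      calc ((1 / 16 : ℝ) ^ n / n.factorial) * (B * ‖ι' ((Nn ^ (n + 1)) v)‖) * (1 / 16)
          ≤ ((1 / 16 : ℝ) ^ n / n.factorial) * (B * (C * (n + 1).factorial * 8 ^ (n + 1))) *
            (1 / 16) := by gcongr
        _ = B * C * (((n : ℝ) + 1) * (1 / 2) ^ n) * (1 / 2) := by
            rw [Nat.factorial_succ]
            push_cast
            have h8 : (1 / 16 : ℝ) ^ n * 8 ^ (n + 1) = (1 / 2) ^ n * 8 := by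
              rw [pow_succ, ← mul_assoc, ← mul_pow]
              norm_num
            field_simp
            linear_combination (2 * B * C) * h8
        _ ≤ B * C * (((n : ℝ) + 1) * (1 / 2) ^ n) := by
            have : 0 ≤ B * C * (((n : ℝ) + 1) * (1 / 2) ^ n) := by positivity
            linarith
    have h3 : ‖Jj c S‖ ≤ ‖ι' S‖ := by
      rw [hnorm, ← Jj_eq]
      exact ContinuousMap.norm_coe_le_norm _ _
    have h4 : ‖ι' S‖ ≤ ‖f (1 / 16) (ι' v)‖ + B * C * (((n : ℝ) + 1) * (1 / 2) ^ n) := by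
      have h5 : ι' S = f (1 / 16) (ι' v) - (f (1 / 16) (ι' v) - ι' S) := by abel
      calc ‖ι' S‖ = ‖f (1 / 16) (ι' v) - (f (1 / 16) (ι' v) - ι' S)‖ := by rw [← h5]
        _ ≤ ‖f (1 / 16) (ι' v)‖ + ‖f (1 / 16) (ι' v) - ι' S‖ := norm_sub_le _ _
        _ ≤ _ := by
          gcongr
          exact ht.trans h2
    have h6 : ‖f (1 / 16) (ι' v)‖ ≤ B * ‖io (Dop c v)‖ := by
      refine ((f (1 / 16)).le_of_opNorm_le (hB ⟨1 / 16, by norm_num, le_rfl⟩) _).trans ?_
      rw [hnorm]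
    have h7 : Jj c S = Jj c v + ((16 * c * ∑ k ∈ Finset.range n,
        (1 / 16 : ℝ) ^ (k + 1) / (k + 1).factorial * 4 ^ k : ℝ) : ℂ) * Pj v := by
      rw [hS, Finset.sum_range_succ', map_add, map_sum]
      simp only [map_smul, Jj_Nn_pow]
      rw [add_comm]
      congr 1
      · simp
      · push_cast
        rw [Finset.mul_sum, Finset.sum_mul]
        refine Finset.sum_congr rfl (fun k _ => ?_)
        rw [smul_eq_mul]
        ring
    have h8 : (1 / 16 : ℝ) ≤ ∑ k ∈ Finset.range n,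
        (1 / 16 : ℝ) ^ (k + 1) / (k + 1).factorial * 4 ^ k := by
      have h9 : (1 / 16 : ℝ) = (1 / 16 : ℝ) ^ (0 + 1) / (0 + 1).factorial * 4 ^ 0 := by norm_num
      calc (1 / 16 : ℝ) = (1 / 16 : ℝ) ^ (0 + 1) / (0 + 1).factorial * 4 ^ 0 := h9
        _ ≤ _ := Finset.single_le_sum (f := fun k : ℕ =>
            (1 / 16 : ℝ) ^ (k + 1) / (k + 1).factorial * 4 ^ k) (fun k _ => by positivity)
            (Finset.mem_range.mpr hn)
    generalize (∑ k ∈ Finset.range n, (1 / 16 : ℝ) ^ (k + 1) / (k + 1).factorial * 4 ^ k) = SS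
      at h7 h8
    have h10 : ‖Jj c v‖ ≤ ‖io (Dop c v)‖ := by
      rw [← Jj_eq]
      exact ContinuousMap.norm_coe_le_norm _ _
    have h11 : 16 * c * SS * ‖Pj v‖ ≤ ‖Jj c S‖ + ‖Jj c v‖ := by
      have h12 : ((16 * c * SS : ℝ) : ℂ) * Pj v = Jj c S - Jj c v := by rw [h7]; ring
      have h13 : ‖((16 * c * SS : ℝ) : ℂ) * Pj v‖ = 16 * c * SS * ‖Pj v‖ := by
        rw [norm_mul, Complex.norm_real, Real.norm_of_nonneg]
        have : 0 ≤ SS := le_trans (by norm_num) h8
        exact mul_nonneg (by linarith) this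
      rw [← h13, h12]
      exact norm_sub_le _ _
    have h14 : c * ‖Pj v‖ ≤ 16 * c * SS * ‖Pj v‖ := by
      have h15 : c ≤ 16 * c * SS := by nlinarith
      gcongr
    linarith
  have hlim : Filter.Tendsto (fun n : ℕ => (B + 1) * ‖io (Dop c v)‖ +
      B * C * (((n : ℝ) + 1) * (1 / 2) ^ n)) Filter.atTop
      (nhds ((B + 1) * ‖io (Dop c v)‖ + B * C * 0)) := by
    apply Filter.Tendsto.const_add
    apply Filter.Tendsto.const_mul
    have h1 : Filter.Tendsto (fun n : ℕ => (n : ℝ) * (1 / 2 : ℝ) ^ n) Filter.atTop (nhds 0) :=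
      tendsto_self_mul_const_pow_of_abs_lt_one (by rw [abs_of_pos] <;> norm_num)
    have h2 : Filter.Tendsto (fun n : ℕ => (1 / 2 : ℝ) ^ n) Filter.atTop (nhds 0) :=
      tendsto_pow_atTop_nhds_zero_of_lt_one (by norm_num) (by norm_num)
    have h3 := h1.add h2
    rw [add_zero] at h3
    refine h3.congr (fun n => ?_)
    ring
  rw [mul_zero, add_zero] at hlim
  have hfin : c * ‖Pj v‖ ≤ (B + 1) * ‖io (Dop c v)‖ :=
    ge_of_tendsto hlim (Filter.eventually_atTop.mpr ⟨1, hstep⟩)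
  rw [div_mul_eq_mul_div, le_div_iff₀ hc]
  linarith

end Pool.Agent.NH57.Sob
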