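import Mathlib
import Pool.Agent.NH57.Sob.Neg2

/-!
The test functions.
-/

set_option autoImplicit false

namespace Pool.Agent.NH57.Sob

open Matrix Complex ComplexConjugate

/-- `∂/∂x` -/
noncomputable def Th1 : V →ₗ[ℂ] V := lin fun j l => (I * j) • e j l
/-- `∂/∂y` -/
noncomputable def Th2 : V →ₗ[ℂ] V := lin fun j l => (I * l) • e j l

lemma Dop_Th (c : ℝ) (v : V) : Dop c v = v - (4 * c : ℂ) • (Th1 (Th1 v) + Th2 (Th2 v)) := by
  induction v using ind_e with
  | h0 => simp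
  | hadd v w hv hw =>
    simp only [map_add]
    rw [hv, hw]
    module
  | hsmul a v hv =>
    simp only [map_smul]
    rw [hv]
    module
  | he j l =>
    rw [Dop_e, Th1, Th2, lin_e, lin_e, map_smul, map_smul, lin_e, lin_e, smul_smul, smul_smul]
    have h1 : (I * j * (I * j) : ℂ) = -(j : ℂ) ^ 2 := by
      linear_combination (j : ℂ) ^ 2 * Complex.I_mul_I
    have h2 : (I * l * (I * l) : ℂ) = -(l : ℂ) ^ 2 := by
      linear_combination (l : ℂ) ^ 2 * Complex.I_mul_I
    rw [h1, h2]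
    module

lemma Pj_Th (v : V) : Pj v = - io (Th1 (Th1 v)) ((1, 1) : T2) := by
  induction v using ind_e with
  | h0 => simp
  | hadd v w hv hw => simp only [map_add, hv, hw, ContinuousMap.add_apply]; ring
  | hsmul a v hv => simp only [map_smul, hv, ContinuousMap.smul_apply, smul_eq_mul]; ring
  | he j l =>
    rw [Pj_e, Th1, lin_e, map_smul, lin_e, smul_smul, map_smul, io_e, ContinuousMap.smul_apply,
      ch_apply]
    have h1 : (I * j * (I * j) : ℂ) = -(j : ℂ) ^ 2 := by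
      linear_combination (j : ℂ) ^ 2 * Complex.I_mul_I
    rw [h1]
    simp

/-- a point of the torus -/
noncomputable def pt (x y : ℝ) : T2 := (Circle.exp x, Circle.exp y)

lemma ch_pt (j l : ℤ) (x y : ℝ) :
    ch j l (pt x y) = Complex.exp (j * (x * I)) * Complex.exp (l * (y * I)) := by
  rw [ch_apply, Complex.exp_int_mul, Complex.exp_int_mul]
  rfl

lemma deriv_x (v : V) (x y : ℝ) :
    HasDerivAt (fun x : ℝ => io v (pt x y)) (io (Th1 v) (pt x y)) x := by
  induction v using ind_e with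
  | h0 => simpa using hasDerivAt_const x (0 : ℂ)
  | hadd v w hv hw =>
    simp only [map_add, ContinuousMap.add_apply]
    exact hv.add hw
  | hsmul a v hv =>
    simp only [map_smul, ContinuousMap.smul_apply]
    exact hv.const_smul a
  | he j l =>
    rw [Th1, lin_e, map_smul, io_e, ContinuousMap.smul_apply, smul_eq_mul]
    simp only [ch_pt]
    have h1 : HasDerivAt (fun x : ℝ => (j : ℂ) * ((x : ℂ) * I)) ((j : ℂ) * (1 * I)) x :=
      ((hasDerivAt_id x).ofReal_comp.mul_const I).const_mul (j : ℂ)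
    have h2 := h1.cexp.mul_const (Complex.exp (l * (y * I)))
    refine h2.congr_deriv ?_
    ring

lemma deriv_y (v : V) (x y : ℝ) :
    HasDerivAt (fun y : ℝ => io v (pt x y)) (io (Th2 v) (pt x y)) y := by
  induction v using ind_e with
  | h0 => simpa using hasDerivAt_const y (0 : ℂ)
  | hadd v w hv hw =>
    simp only [map_add, ContinuousMap.add_apply]
    exact hv.add hw
  | hsmul a v hv =>
    simp only [map_smul, ContinuousMap.smul_apply]
    exact hv.const_smul a
  | he j l =>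
    rw [Th2, lin_e, map_smul, io_e, ContinuousMap.smul_apply, smul_eq_mul]
    simp only [ch_pt]
    have h1 : HasDerivAt (fun y : ℝ => (l : ℂ) * ((y : ℂ) * I)) ((l : ℂ) * (1 * I)) y :=
      ((hasDerivAt_id y).ofReal_comp.mul_const I).const_mul (l : ℂ)
    have h2 := h1.cexp.const_mul (Complex.exp (j * (x * I)))
    refine h2.congr_deriv ?_
    ring

lemma second_x (v : V) (F F1 F2 : ℝ → ℝ → ℝ) (hF : ∀ x y, io v (pt x y) = (F x y : ℂ))
    (h1 : ∀ x y, HasDerivAt (fun x => F x y) (F1 x y) x)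
    (h2 : ∀ x y, HasDerivAt (fun x => F1 x y) (F2 x y) x) (x y : ℝ) :
    io (Th1 (Th1 v)) (pt x y) = (F2 x y : ℂ) := by
  have a1 : ∀ x y, io (Th1 v) (pt x y) = (F1 x y : ℂ) := by
    intro x y
    have b1 := deriv_x v x y
    have b2 : (fun x : ℝ => io v (pt x y)) = fun x : ℝ => ((F x y : ℝ) : ℂ) := by
      funext x
      exact hF x y
    rw [b2] at b1
    exact b1.unique (h1 x y).ofReal_comp
  have b1 := deriv_x (Th1 v) x y
  have b2 : (fun x : ℝ => io (Th1 v) (pt x y)) = fun x : ℝ => ((F1 x y : ℝ) : ℂ) := by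
    funext x
    exact a1 x y
  rw [b2] at b1
  exact b1.unique (h2 x y).ofReal_comp

lemma second_y (v : V) (F F1 F2 : ℝ → ℝ → ℝ) (hF : ∀ x y, io v (pt x y) = (F x y : ℂ))
    (h1 : ∀ x y, HasDerivAt (fun y => F x y) (F1 x y) y)
    (h2 : ∀ x y, HasDerivAt (fun y => F1 x y) (F2 x y) y) (x y : ℝ) :
    io (Th2 (Th2 v)) (pt x y) = (F2 x y : ℂ) := by
  have a1 : ∀ x y, io (Th2 v) (pt x y) = (F1 x y : ℂ) := by
    intro x y
    have b1 := deriv_y v x y
    have b2 : (fun y : ℝ => io v (pt x y)) = fun y : ℝ => ((F x y : ℝ) : ℂ) := by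
      funext y
      exact hF x y
    rw [b2] at b1
    exact b1.unique (h1 x y).ofReal_comp
  have b1 := deriv_y (Th2 v) x y
  have b2 : (fun y : ℝ => io (Th2 v) (pt x y)) = fun y : ℝ => ((F1 x y : ℝ) : ℂ) := by
    funext y
    exact a1 x y
  rw [b2] at b1
  exact b1.unique (h2 x y).ofReal_comp

/-! ### The polynomials in one variable -/

/-- `∑ r^(k+1)/(k+1)` -/
noncomputable def SN (N : ℕ) (r : ℝ) : ℝ := ∑ k ∈ Finset.range N, r ^ (k + 1) / (k + 1)
/-- `∑ r^k` -/
noncomputable def gN (N : ℕ) (r : ℝ) : ℝ := ∑ k ∈ Finset.range N, r ^ k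
/-- `∑ k r^(k-1)` -/
noncomputable def hN (N : ℕ) (r : ℝ) : ℝ := ∑ k ∈ Finset.range N, (k : ℝ) * r ^ (k - 1)

lemma SN_der (N : ℕ) (r : ℝ) : HasDerivAt (SN N) (gN N r) r := by
  have h : ∀ k ∈ Finset.range N, HasDerivAt (fun r : ℝ => r ^ (k + 1) / ((k : ℝ) + 1)) (r ^ k) r := by
    intro k _
    have h1 := (hasDerivAt_pow (k + 1) r).div_const ((k : ℝ) + 1)
    refine h1.congr_deriv ?_
    have : (k : ℝ) + 1 ≠ 0 := by positivity
    rw [Nat.add_sub_cancel]
    push_cast
    field_simp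
  exact HasDerivAt.fun_sum h

lemma gN_der (N : ℕ) (r : ℝ) : HasDerivAt (gN N) (hN N r) r := by
  have h : ∀ k ∈ Finset.range N, HasDerivAt (fun r : ℝ => r ^ k) ((k : ℝ) * r ^ (k - 1)) r :=
    fun k _ => hasDerivAt_pow k r
  exact HasDerivAt.fun_sum h

lemma gN_bound {N : ℕ} {r : ℝ} (h0 : 0 ≤ r) : (1 - r) * gN N r ≤ 1 ∧ 0 ≤ gN N r := by
  constructor
  · have h2 : (1 - r) * gN N r = 1 - r ^ N := by
      rw [gN]
      exact mul_neg_geom_sum r N
    rw [h2]
    have : 0 ≤ r ^ N := by positivity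
    linarith
  · exact Finset.sum_nonneg (fun k _ => by positivity)

lemma SN_bound {N : ℕ} {r : ℝ} (h0 : 0 ≤ r) (h1 : r ≤ 1) :
    (1 - r) * SN N r ≤ 1 ∧ 0 ≤ SN N r := by
  have hS : SN N r ≤ gN N r := by
    refine Finset.sum_le_sum (fun k _ => ?_)
    have h3 : (0 : ℝ) < k + 1 := by positivity
    rw [div_le_iff₀ h3, pow_succ]
    have h4 : 0 ≤ r ^ k := by positivity
    have h5 : r ^ k * r ≤ r ^ k * 1 := mul_le_mul_of_nonneg_left h1 h4
    have h6 : (0 : ℝ) ≤ k := by positivity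
    nlinarith
  constructor
  · refine le_trans ?_ (gN_bound (N := N) h0).1
    exact mul_le_mul_of_nonneg_left hS (by linarith)
  · exact Finset.sum_nonneg (fun k _ => by positivity)

lemma hN_bound {N : ℕ} {r : ℝ} (h0 : 0 ≤ r) (h1 : r ≤ 1) :
    (1 - r) ^ 2 * hN N r ≤ 1 ∧ 0 ≤ hN N r := by
  have key : ∀ N : ℕ, (1 - r) * hN N r = gN N r - N * r ^ (N - 1) := by
    intro N
    induction N with
    | zero => simp [hN, gN]
    | succ n ih =>
      have e1 : hN (n + 1) r = hN n r + n * r ^ (n - 1) := by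
        rw [hN, Finset.sum_range_succ]
        rfl
      have e2 : gN (n + 1) r = gN n r + r ^ n := by
        rw [gN, Finset.sum_range_succ]
        rfl
      rw [e1, e2, mul_add, ih]
      rcases Nat.eq_zero_or_pos n with h | h
      · subst h
        simp
      · obtain ⟨m, rfl⟩ : ∃ m, n = m + 1 := ⟨n - 1, by omega⟩
        rw [Nat.add_sub_cancel, Nat.add_sub_cancel]
        push_cast
        ring
  constructor
  · have h2 : (1 - r) * hN N r ≤ gN N r := by
      rw [key]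
      have : 0 ≤ (N : ℝ) * r ^ (N - 1) := by positivity
      linarith
    calc (1 - r) ^ 2 * hN N r = (1 - r) * ((1 - r) * hN N r) := by ring
      _ ≤ (1 - r) * gN N r := mul_le_mul_of_nonneg_left h2 (by linarith)
      _ ≤ 1 := (gN_bound h0).1
  · exact Finset.sum_nonneg (fun k _ => by positivity)

/-! ### The test functions -/

/-- the argument -/
noncomputable def rr (x y : ℝ) : ℝ := (2 + Real.cos x + Real.cos y) / 4

/-- the test function -/
noncomputable def FN (N : ℕ) (x y : ℝ) : ℝ := (Real.cos y - Real.cos x) * SN N (rr x y)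

/-- first derivative in `x` -/
noncomputable def FX (N : ℕ) (x y : ℝ) : ℝ :=
  Real.sin x * SN N (rr x y) + (Real.cos y - Real.cos x) * (gN N (rr x y) * (-Real.sin x / 4))

/-- second derivative in `x` -/
noncomputable def FXX (N : ℕ) (x y : ℝ) : ℝ :=
  (Real.cos x * SN N (rr x y) + Real.sin x * (gN N (rr x y) * (-Real.sin x / 4))) +
    (Real.sin x * (gN N (rr x y) * (-Real.sin x / 4)) +
      (Real.cos y - Real.cos x) * (hN N (rr x y) * (-Real.sin x / 4) * (-Real.sin x / 4) +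
        gN N (rr x y) * (-Real.cos x / 4)))

/-- first derivative in `y` -/
noncomputable def FY (N : ℕ) (x y : ℝ) : ℝ :=
  (-Real.sin y) * SN N (rr x y) + (Real.cos y - Real.cos x) * (gN N (rr x y) * (-Real.sin y / 4))

/-- second derivative in `y` -/
noncomputable def FYY (N : ℕ) (x y : ℝ) : ℝ :=
  ((-Real.cos y) * SN N (rr x y) + (-Real.sin y) * (gN N (rr x y) * (-Real.sin y / 4))) +
    ((-Real.sin y) * (gN N (rr x y) * (-Real.sin y / 4)) +
      (Real.cos y - Real.cos x) * (hN N (rr x y) * (-Real.sin y / 4) * (-Real.sin y / 4) +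
        gN N (rr x y) * (-Real.cos y / 4)))

lemma rr_x (x y : ℝ) : HasDerivAt (fun x => rr x y) (-Real.sin x / 4) x :=
  (((Real.hasDerivAt_cos x).const_add 2).add_const (Real.cos y)).div_const 4

lemma rr_y (x y : ℝ) : HasDerivAt (fun y => rr x y) (-Real.sin y / 4) y :=
  ((Real.hasDerivAt_cos y).const_add (2 + Real.cos x)).div_const 4

lemma SN_x (N : ℕ) (x y : ℝ) : HasDerivAt (fun x => SN N (rr x y))
    (gN N (rr x y) * (-Real.sin x / 4)) x :=
  HasDerivAt.comp (h₂ := SN N) (h := fun x => rr x y) x (SN_der N (rr x y)) (rr_x x y)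

lemma SN_y (N : ℕ) (x y : ℝ) : HasDerivAt (fun y => SN N (rr x y))
    (gN N (rr x y) * (-Real.sin y / 4)) y :=
  HasDerivAt.comp (h₂ := SN N) (h := fun y => rr x y) y (SN_der N (rr x y)) (rr_y x y)

lemma gN_x (N : ℕ) (x y : ℝ) : HasDerivAt (fun x => gN N (rr x y))
    (hN N (rr x y) * (-Real.sin x / 4)) x :=
  HasDerivAt.comp (h₂ := gN N) (h := fun x => rr x y) x (gN_der N (rr x y)) (rr_x x y)

lemma gN_y (N : ℕ) (x y : ℝ) : HasDerivAt (fun y => gN N (rr x y))
    (hN N (rr x y) * (-Real.sin y / 4)) y :=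
  HasDerivAt.comp (h₂ := gN N) (h := fun y => rr x y) y (gN_der N (rr x y)) (rr_y x y)

lemma FN_x (N : ℕ) (x y : ℝ) : HasDerivAt (fun x => FN N x y) (FX N x y) x := by
  have h1 : HasDerivAt (fun x => Real.cos y - Real.cos x) (Real.sin x) x := by
    have := (Real.hasDerivAt_cos x).const_sub (Real.cos y)
    rwa [neg_neg] at this
  exact h1.mul (SN_x N x y)

lemma FN_y (N : ℕ) (x y : ℝ) : HasDerivAt (fun y => FN N x y) (FY N x y) y := by
  have h1 : HasDerivAt (fun y => Real.cos y - Real.cos x) (-Real.sin y) y :=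
    (Real.hasDerivAt_cos y).sub_const (Real.cos x)
  exact h1.mul (SN_y N x y)

lemma FX_x (N : ℕ) (x y : ℝ) : HasDerivAt (fun x => FX N x y) (FXX N x y) x := by
  have h1 : HasDerivAt (fun x => Real.cos y - Real.cos x) (Real.sin x) x := by
    have := (Real.hasDerivAt_cos x).const_sub (Real.cos y)
    rwa [neg_neg] at this
  have h2 : HasDerivAt (fun x => -Real.sin x / 4) (-Real.cos x / 4) x :=
    (Real.hasDerivAt_sin x).neg.div_const 4
  exact ((Real.hasDerivAt_sin x).mul (SN_x N x y)).add (h1.mul ((gN_x N x y).mul h2))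

lemma FY_y (N : ℕ) (x y : ℝ) : HasDerivAt (fun y => FY N x y) (FYY N x y) y := by
  have h1 : HasDerivAt (fun y => Real.cos y - Real.cos x) (-Real.sin y) y :=
    (Real.hasDerivAt_cos y).sub_const (Real.cos x)
  have h2 : HasDerivAt (fun y => -Real.sin y / 4) (-Real.cos y / 4) y :=
    (Real.hasDerivAt_sin y).neg.div_const 4
  exact ((Real.hasDerivAt_sin y).neg.mul (SN_y N x y)).add (h1.mul ((gN_y N x y).mul h2))

lemma bounds (N : ℕ) (x y : ℝ) : |FN N x y| ≤ 4 ∧ |FXX N x y + FYY N x y| ≤ 12 := by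
  have hc1 := Real.cos_le_one x
  have hc2 := Real.neg_one_le_cos x
  have hd1 := Real.cos_le_one y
  have hd2 := Real.neg_one_le_cos y
  have hs := Real.sin_sq_add_cos_sq x
  have ht := Real.sin_sq_add_cos_sq y
  have hr : rr x y = (2 + Real.cos x + Real.cos y) / 4 := rfl
  have hr0 : 0 ≤ rr x y := by rw [hr]; linarith
  have hr1 : rr x y ≤ 1 := by rw [hr]; linarith
  obtain ⟨hS, hS0⟩ := SN_bound (N := N) hr0 hr1
  obtain ⟨hg, hg0⟩ := gN_bound (N := N) hr0
  obtain ⟨hh, hh0⟩ := hN_bound (N := N) hr0 hr1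
  unfold FN FXX FYY
  generalize rr x y = r at *
  generalize SN N r = S at *
  generalize gN N r = g at *
  generalize hN N r = h at *
  generalize Real.cos x = a at *
  generalize Real.cos y = b at *
  generalize Real.sin x = p at *
  generalize Real.sin y = q at *
  have ha : 0 ≤ 1 - a := by linarith
  have hb : 0 ≤ 1 - b := by linarith
  -- s = 4 (1 - r) = (1 - a) + (1 - b)
  have hs4 : 4 * (1 - r) = (1 - a) + (1 - b) := by rw [hr]; ring
  have h1r : 0 ≤ 1 - r := by linarith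
  have hab : |b - a| ≤ 4 * (1 - r) := by rw [hs4, abs_le]; constructor <;> linarith
  have hp : p ^ 2 ≤ 2 * (1 - a) := by nlinarith
  have hq : q ^ 2 ≤ 2 * (1 - b) := by nlinarith
  have hpq : |q ^ 2 - p ^ 2| ≤ 2 * (4 * (1 - r)) := by
    rw [hs4, abs_le]
    constructor <;> nlinarith [sq_nonneg p, sq_nonneg q]
  have hpq2 : p ^ 2 + q ^ 2 ≤ 2 * (4 * (1 - r)) := by rw [hs4]; linarith
  constructor
  · rw [abs_mul, abs_of_nonneg hS0]
    calc |b - a| * S ≤ 4 * (1 - r) * S := mul_le_mul_of_nonneg_right hab hS0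
      _ ≤ 4 := by nlinarith
  · have e1 : (a * S + p * (g * (-p / 4)) + (p * (g * (-p / 4)) +
        (b - a) * (h * (-p / 4) * (-p / 4) + g * (-a / 4)))) +
        (-b * S + -q * (g * (-q / 4)) + (-q * (g * (-q / 4)) +
        (b - a) * (h * (-q / 4) * (-q / 4) + g * (-b / 4)))) =
        -((b - a) * S) + (q ^ 2 - p ^ 2) * (g / 2) + (b - a) * (h * (p ^ 2 + q ^ 2) / 16) -
        (b - a) * (g * ((a + b) / 4)) := by ring
    rw [e1]
    have b1 : |(b - a) * S| ≤ 4 := by
      rw [abs_mul, abs_of_nonneg hS0]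
      calc |b - a| * S ≤ 4 * (1 - r) * S := mul_le_mul_of_nonneg_right hab hS0
        _ ≤ 4 := by nlinarith
    have b2 : |(q ^ 2 - p ^ 2) * (g / 2)| ≤ 4 := by
      rw [abs_mul, abs_of_nonneg (by positivity : 0 ≤ g / 2)]
      calc |q ^ 2 - p ^ 2| * (g / 2) ≤ 2 * (4 * (1 - r)) * (g / 2) :=
            mul_le_mul_of_nonneg_right hpq (by positivity)
        _ ≤ 4 := by nlinarith
    have b3 : |(b - a) * (h * (p ^ 2 + q ^ 2) / 16)| ≤ 2 := by
      have h3 : 0 ≤ h * (p ^ 2 + q ^ 2) / 16 := by positivity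
      rw [abs_mul, abs_of_nonneg h3]
      calc |b - a| * (h * (p ^ 2 + q ^ 2) / 16) ≤
            4 * (1 - r) * (h * (2 * (4 * (1 - r))) / 16) := by
            gcongr
        _ = 2 * ((1 - r) ^ 2 * h) := by ring
        _ ≤ 2 := by linarith
    have b4 : |(b - a) * (g * ((a + b) / 4))| ≤ 2 := by
      rw [abs_mul, abs_mul, abs_of_nonneg hg0]
      have h4 : |(a + b) / 4| ≤ 1 / 2 := by rw [abs_le]; constructor <;> linarith
      calc |b - a| * (g * |(a + b) / 4|) ≤ 4 * (1 - r) * (g * (1 / 2)) := by gcongr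
        _ = 2 * ((1 - r) * g) := by ring
        _ ≤ 2 := by linarith
    rw [abs_le] at b1 b2 b3 b4 ⊢
    constructor <;> linarith [b1.1, b1.2, b2.1, b2.2, b3.1, b3.2, b4.1, b4.2]

lemma cos_mem : ∃ C1 ∈ trig, ∀ x y : ℝ, C1 (pt x y) = ((Real.cos x : ℝ) : ℂ) := by
  refine ⟨(1 / 2 : ℂ) • (ch 1 0 + ch (-1) 0), ?_, ?_⟩
  · exact trig.smul_mem (trig.add_mem (ch_mem _ _) (ch_mem _ _)) _
  · intro x y
    rw [ContinuousMap.smul_apply, ContinuousMap.add_apply, ch_pt, ch_pt, smul_eq_mul,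
      Complex.ofReal_cos, Complex.cos]
    push_cast
    simp
    ring

lemma cos_mem' : ∃ C2 ∈ trig, ∀ x y : ℝ, C2 (pt x y) = ((Real.cos y : ℝ) : ℂ) := by
  refine ⟨(1 / 2 : ℂ) • (ch 0 1 + ch 0 (-1)), ?_, ?_⟩
  · exact trig.smul_mem (trig.add_mem (ch_mem _ _) (ch_mem _ _)) _
  · intro x y
    rw [ContinuousMap.smul_apply, ContinuousMap.add_apply, ch_pt, ch_pt, smul_eq_mul,
      Complex.ofReal_cos, Complex.cos]
    push_cast
    simp
    ring

lemma exists_vN (N : ℕ) : ∃ v : V, ∀ x y : ℝ, io v (pt x y) = (FN N x y : ℂ) := by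
  obtain ⟨C1, hC1, h1⟩ := cos_mem
  obtain ⟨C2, hC2, h2⟩ := cos_mem'
  have hR : (1 / 4 : ℂ) • ((2 : ℂ) • (1 : E) + C1 + C2) ∈ trig :=
    trig.smul_mem (trig.add_mem (trig.add_mem (trig.smul_mem trig.one_mem _) hC1) hC2) _
  have hf : (C2 - C1) * ∑ k ∈ Finset.range N, (1 / ((k : ℂ) + 1)) •
      ((1 / 4 : ℂ) • ((2 : ℂ) • (1 : E) + C1 + C2)) ^ (k + 1) ∈ trig := by
    apply trig.mul_mem (trig.sub_mem hC2 hC1)
    apply trig.sum_mem
    intro k _
    exact trig.smul_mem (trig.pow_mem hR _) _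
  obtain ⟨v, hv⟩ := mem_trig.mp hf
  refine ⟨v, ?_⟩
  intro x y
  rw [hv, ContinuousMap.mul_apply, ContinuousMap.sub_apply, h1, h2, ContinuousMap.sum_apply]
  rw [FN, SN, rr]
  push_cast
  congr 1
  refine Finset.sum_congr rfl (fun k _ => ?_)
  simp only [Pi.smul_apply, Pi.pow_apply, Pi.add_apply, Pi.one_apply, smul_eq_mul, h1, h2]
  push_cast
  ring

lemma pt_surj (z : T2) : ∃ x y : ℝ, pt x y = z :=
  ⟨Complex.arg z.1, Complex.arg z.2, Prod.ext (Circle.exp_arg _) (Circle.exp_arg _)⟩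

theorem not_bounded {c : ℝ} (hc : 0 < c) :
    ¬ ∃ C : ℝ, 0 ≤ C ∧ ∀ v, ‖Pj v‖ ≤ C * ‖io (Dop c v)‖ := by
  rintro ⟨C, hC0, hC⟩
  have key : ∀ N : ℕ, ∑ k ∈ Finset.range N, (1 / ((k : ℝ) + 1)) ≤ C * (4 + 48 * c) := by
    intro N
    obtain ⟨v, hv⟩ := exists_vN N
    have hx := second_x v (FN N) (FX N) (FXX N) hv (FN_x N) (FX_x N)
    have hy := second_y v (FN N) (FY N) (FYY N) hv (FN_y N) (FY_y N)
    have h1 : ‖io (Dop c v)‖ ≤ 4 + 48 * c := by
      rw [ContinuousMap.norm_le _ (by positivity)]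
      intro z
      obtain ⟨x, y, rfl⟩ := pt_surj z
      obtain ⟨b1, b2⟩ := bounds N x y
      rw [Dop_Th, map_sub, map_smul, map_add, ContinuousMap.sub_apply, ContinuousMap.smul_apply,
        ContinuousMap.add_apply, hx, hy, hv]
      have h2 : ((FN N x y : ℝ) : ℂ) - (4 * (c : ℂ)) • (((FXX N x y : ℝ) : ℂ) + ((FYY N x y : ℝ) : ℂ)) =
          ((FN N x y - 4 * c * (FXX N x y + FYY N x y) : ℝ) : ℂ) := by
        rw [smul_eq_mul]
        push_cast
        ring
      rw [h2, Complex.norm_real, Real.norm_eq_abs]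
      calc |FN N x y - 4 * c * (FXX N x y + FYY N x y)| ≤
            |FN N x y| + |4 * c * (FXX N x y + FYY N x y)| := abs_sub _ _
        _ = |FN N x y| + 4 * c * |FXX N x y + FYY N x y| := by
            rw [abs_mul, abs_of_pos (by positivity : 0 < 4 * c)]
        _ ≤ 4 + 4 * c * 12 := by gcongr
        _ = 4 + 48 * c := by ring
    have h3 : ‖Pj v‖ = ∑ k ∈ Finset.range N, (1 / ((k : ℝ) + 1)) := by
      have h4 : pt 0 0 = ((1, 1) : T2) := by
        rw [pt, Circle.exp_zero]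
      rw [Pj_Th, ← h4, hx, norm_neg, Complex.norm_real]
      have h5 : FXX N 0 0 = ∑ k ∈ Finset.range N, (1 / ((k : ℝ) + 1)) := by
        have h6 : rr 0 0 = 1 := by rw [rr, Real.cos_zero]; norm_num
        rw [FXX, h6, Real.sin_zero, Real.cos_zero, SN]
        simp
      rw [h5, Real.norm_of_nonneg]
      exact Finset.sum_nonneg (fun k _ => by positivity)
    rw [← h3]
    exact (hC v).trans (mul_le_mul_of_nonneg_left h1 hC0)
  have htop := Real.tendsto_sum_range_one_div_nat_succ_atTop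
  obtain ⟨N, hN⟩ := (htop.eventually (Filter.eventually_gt_atTop (C * (4 + 48 * c)))).exists
  have := key N
  linarith

end Pool.Agent.NH57.Sob
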